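import Pool.Agent.R303.SW.Mo
import Pool.Agent.H534R2.BH_Lam

/-! # The Liouville function -/

set_option autoImplicit false
set_option maxHeartbeats 4000000

open Complex Filter Topology Set Metric MeasureTheory
open H353 (FF mu mu_cast mu_pos FF_anal FF_order_ne_top zeros_finite FF_bound)
open Pool.Agent.W190

namespace Pool.Agent.R303.SW

noncomputable section

/-- the Liouville function -/
def laR (n : ℕ) : ℝ := ((ArithmeticFunction.liouville n : ℤ) : ℝ)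

open Classical in
/-- the indicator of the squares of positive integers -/
def sqC (n : ℕ) : ℂ := if ∃ m : ℕ, n = (m + 1) ^ 2 then 1 else 0

lemma laR_zero : laR 0 = 0 := by simp [laR]

lemma laR_eq {n : ℕ} (hn : n ≠ 0) : laR n = (-1) ^ ArithmeticFunction.cardFactors n := by
  unfold laR
  rw [ArithmeticFunction.liouville_apply hn]
  push_cast
  rfl

lemma laR_abs (n : ℕ) : |laR n| ≤ 1 := by
  rcases eq_or_ne n 0 with rfl | hn
  · rw [laR_zero]; simp
  · rw [laR_eq hn, abs_pow]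
    simp

lemma la_conv {n : ℕ} (hn : n ≠ 0) :
    ((laR n : ℝ) : ℂ) = LSeries.convolution (fun n => ((ArithmeticFunction.moebius n : ℤ) : ℂ)) sqC n := by
  rw [LSeries.convolution_def]
  have h1 := Pool.Agent.H534R2.BH.lam_eq n n (Finset.mem_Icc.2 ⟨Nat.one_le_iff_ne_zero.2 hn, le_rfl⟩)
  have h2 : ((laR n : ℝ) : ℂ) = (-1 : ℂ) ^ ArithmeticFunction.cardFactors n := by
    rw [laR_eq hn]
    push_cast
    rfl
  rw [h2, h1]
  classical
  show _ = ∑ p ∈ n.divisorsAntidiagonal, ((ArithmeticFunction.moebius p.1 : ℤ) : ℂ) * sqC p.2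
  rw [Nat.sum_divisorsAntidiagonal' (f := fun a b => ((ArithmeticFunction.moebius a : ℤ) : ℂ) * sqC b)]
  rw [← Finset.sum_filter]
  have e1 : ∑ i ∈ n.divisors, ((ArithmeticFunction.moebius (n / i) : ℤ) : ℂ) * sqC i =
      ∑ i ∈ n.divisors.filter (fun i => ∃ m : ℕ, i = (m + 1) ^ 2),
        ((ArithmeticFunction.moebius (n / i) : ℤ) : ℂ) := by
    rw [Finset.sum_filter]
    refine Finset.sum_congr rfl fun i _ => ?_
    unfold sqC
    split_ifs <;> simp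
  rw [e1]
  refine Finset.sum_bij (fun m _ => m ^ 2) ?_ ?_ ?_ ?_
  · intro m hm
    rw [Finset.mem_filter, Finset.mem_Icc] at hm
    rw [Finset.mem_filter, Nat.mem_divisors]
    refine ⟨⟨hm.2, hn⟩, m - 1, ?_⟩
    rw [Nat.sub_add_cancel hm.1.1]
  · intro a ha b hb h
    exact Nat.pow_left_injective (n := 2) (by norm_num) h
  · intro i hi
    rw [Finset.mem_filter, Nat.mem_divisors] at hi
    obtain ⟨⟨hd, _⟩, m, hm⟩ := hi
    refine ⟨m + 1, ?_, hm.symm⟩
    rw [Finset.mem_filter, Finset.mem_Icc]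
    refine ⟨⟨by omega, ?_⟩, by rw [← hm]; exact hd⟩
    have h3 := Nat.le_of_dvd (Nat.pos_of_ne_zero hn) hd
    rw [hm] at h3
    nlinarith
  · intro m hm
    rfl

lemma sqC_summable {s : ℂ} (hs : 1 < s.re) : LSeriesSummable sqC s := by
  refine LSeriesSummable_of_bounded_of_one_lt_re (m := 1) (fun n _ => ?_) hs
  unfold sqC
  split_ifs <;> simp

lemma LS_sq {s : ℂ} (hs : 1 < s.re) : LSeries sqC s = riemannZeta (2 * s) := by
  have h2 : 1 < (2 * s).re := by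
    rw [Complex.mul_re]
    simp
    linarith
  rw [zeta_eq_tsum_one_div_nat_add_one_cpow h2]
  unfold LSeries
  have hinj : Function.Injective (fun m : ℕ => (m + 1) ^ 2) := fun a b h => by
    have := Nat.pow_left_injective (n := 2) (by norm_num) h
    simpa using this
  rw [← hinj.tsum_eq (f := fun n => LSeries.term sqC s n) ?_]
  · refine tsum_congr fun m => ?_
    have hm : (m + 1) ^ 2 ≠ 0 := by positivity
    rw [LSeries.term_of_ne_zero hm]
    unfold sqC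
    rw [if_pos ⟨m, rfl⟩]
    congr 1
    have e1 : (((m + 1) ^ 2 : ℕ) : ℂ) = ((m + 1 : ℕ) : ℂ) * ((m + 1 : ℕ) : ℂ) := by
      push_cast
      ring
    have h3 : ((m + 1 : ℕ) : ℂ) ≠ 0 := by exact_mod_cast (by omega : m + 1 ≠ 0)
    rw [e1, Complex.natCast_mul_natCast_cpow, ← Complex.cpow_add _ _ h3, two_mul]
    push_cast
    rfl
  · intro n hn
    rw [Function.mem_support] at hn
    by_contra h
    apply hn
    rcases eq_or_ne n 0 with rfl | h0
    · simp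
    · rw [LSeries.term_of_ne_zero h0]
      have : sqC n = 0 := by
        unfold sqC
        rw [if_neg]
        rintro ⟨m, rfl⟩
        exact h ⟨m, rfl⟩
      rw [this, zero_div]

lemma LS_la {s : ℂ} (hs : 1 < s.re) :
    LSeries (fun n => ((laR n : ℝ) : ℂ)) s * riemannZeta s = riemannZeta (2 * s) := by
  have e1 : LSeries (fun n => ((laR n : ℝ) : ℂ)) s =
      LSeries (LSeries.convolution (fun n => ((ArithmeticFunction.moebius n : ℤ) : ℂ)) sqC) s :=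
    LSeries_congr (fun {n} hn => la_conv hn) s
  have h2 := ArithmeticFunction.LSeries_zeta_mul_Lseries_moebius hs
  rw [ArithmeticFunction.LSeries_zeta_eq_riemannZeta hs] at h2
  rw [e1, LSeries_convolution' (ArithmeticFunction.LSeriesSummable_moebius_iff.2 hs) (sqC_summable hs),
    LS_sq hs]
  linear_combination riemannZeta (2 * s) * h2

lemma la_sum : Summable fun n : ℕ => ‖((laR n : ℝ) : ℂ)‖ / (n : ℝ) ^ 2 := by
  refine Summable.of_nonneg_of_le (fun n => by positivity) (fun n => ?_)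
    (Real.summable_one_div_nat_pow.2 (by norm_num : 1 < 2))
  have : ‖((laR n : ℝ) : ℂ)‖ ≤ 1 := by
    rw [Complex.norm_real, Real.norm_eq_abs]
    exact laR_abs n
  gcongr

/-- `(s-1)²ζ(2s)` in the half-plane to the right of `σ` -/
def Bla (σ : ℝ) (s : ℂ) : ℂ := if σ < s.re then (s - 1) ^ 2 * riemannZeta (2 * s) else 0

lemma Bla_ev {σ : ℝ} {z : ℂ} (hz : σ < z.re) :
    Bla σ =ᶠ[𝓝 z] fun s => (s - 1) ^ 2 * riemannZeta (2 * s) := by
  filter_upwards [(isOpen_lt continuous_const Complex.continuous_re).mem_nhds hz] with s hs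
  unfold Bla
  rw [if_pos hs]

lemma Bla_an0 {z : ℂ} (hz : 1 / 2 < z.re) :
    AnalyticAt ℂ (fun s => (s - 1) ^ 2 * riemannZeta (2 * s)) z := by
  have h1 : ∀ᶠ s : ℂ in 𝓝 z, DifferentiableAt ℂ (fun s => (s - 1) ^ 2 * riemannZeta (2 * s)) s := by
    filter_upwards [(isOpen_lt continuous_const Complex.continuous_re).mem_nhds hz] with s hs
    have hs' : 1 / 2 < s.re := hs
    have hne : 2 * s ≠ 1 := by
      intro h
      have := congrArg Complex.re h
      simp at this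
      linarith
    have h2 : DifferentiableAt ℂ (fun s => riemannZeta (2 * s)) s :=
      (differentiableAt_riemannZeta hne).comp s (by fun_prop)
    exact DifferentiableAt.mul (by fun_prop) h2
  exact Complex.analyticAt_iff_eventually_differentiableAt.2 h1

lemma Bla_an {σ : ℝ} (hσ : 1 / 2 ≤ σ) {z : ℂ} (hz : σ < z.re) : AnalyticAt ℂ (Bla σ) z :=
  (Bla_an0 (by linarith)).congr (Bla_ev hz).symm

lemma zeta_bd {σ : ℝ} (hσ : 1 < σ) {z : ℂ} (hz : σ ≤ z.re) :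
    ‖riemannZeta z‖ ≤ ∑' n : ℕ, 1 / ((n : ℝ) + 1) ^ σ := by
  have hs : Summable fun n : ℕ => 1 / ((n : ℝ) + 1) ^ σ := by
    have := (Real.summable_one_div_nat_rpow.2 hσ)
    have h2 := (summable_nat_add_iff 1).2 this
    simpa using h2
  have hle : ∀ n : ℕ, ‖1 / ((n : ℂ) + 1) ^ z‖ ≤ 1 / ((n : ℝ) + 1) ^ σ := by
    intro n
    have h1 : (0:ℝ) < (n : ℝ) + 1 := by positivity
    have h2 : ‖((n : ℂ) + 1) ^ z‖ = ((n : ℝ) + 1) ^ z.re := by
      have : ((n : ℂ) + 1) = (((n : ℝ) + 1 : ℝ) : ℂ) := by push_cast; rfl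
      rw [this, Complex.norm_cpow_eq_rpow_re_of_pos h1]
    rw [norm_div, norm_one, h2]
    refine one_div_le_one_div_of_le (by positivity) ?_
    exact Real.rpow_le_rpow_of_exponent_le (by linarith [Nat.cast_nonneg (α := ℝ) n]) hz
  rw [zeta_eq_tsum_one_div_nat_add_one_cpow (by linarith)]
  exact tsum_of_norm_bounded hs.hasSum hle

/-- the operator bound for the Liouville function -/
theorem liou_op {σ θ κ c α δ : ℝ} (hσ : 1 / 2 < σ) (hθ : σ < θ) (hκ : 0 ≤ κ) (hc : 0 < c) (hα : 0 ≤ α)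
    (hακ : (κ + 1) * α < 1) (hdens : Dens σ α) (ρ₀ : ℂ) (hρ0 : FF ρ₀ = 0) (hρθ : θ < ρ₀.re) (D : ℝ → ℕ)
    (hδ1 : δ < 1) (hDu : ∀ᶠ u in atTop, (D u : ℝ) ≤ u ^ δ)
    (ε : ℝ) (hε : 0 < ε) :
    ∃ G : ℝ → ℝ, SP G ∧ ∀ᶠ u in atTop, ∃ (h d : ℝ) (N : ℕ) (L : List ℂ), 0 < h ∧ h ≤ 1 / 4 ∧ 0 ≤ d ∧
      (∀ r ∈ L, 0 ≤ r.re) ∧ (∀ k ∈ Finset.Icc 1 (D u + 1), (k : ℂ) ∈ L) ∧
      ((N : ℝ) + 2) * h + (L.length : ℝ) * d ≤ et c κ u ∧ 2 ^ L.length * (h⁻¹ * h⁻¹) ≤ G u ∧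
      Real.exp ((ρ₀.re - ε) * u) ≤ ‖Op h d N L (TT (fun n => ((laR n : ℝ) : ℂ))) u‖ := by
  classical
  obtain ⟨F1, hF1, hF10, hF⟩ := exists_F1 ρ₀
  have hρ1 : ρ₀.re < 1 := ZU.J_g2b.FF_zero_re hρ0
  have hmu := mu_pos ρ₀ hρ0
  have hσρ : σ < ρ₀.re := by linarith
  have hρne : ρ₀ - 1 ≠ 0 := by
    intro h
    have := congrArg Complex.re h
    simp at this
    linarith
  have h2re : ∀ z : ℂ, (2 * z).re = 2 * z.re := fun z => by simp
  have hz2 : riemannZeta (2 * ρ₀) ≠ 0 := riemannZeta_ne_zero_of_one_lt_re (by rw [h2re]; linarith)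
  have hZ0 : 0 ≤ ∑' n : ℕ, 1 / ((n : ℝ) + 1) ^ (2 * σ) := tsum_nonneg fun n => by positivity
  refine main_op (a := fun n => ((laR n : ℝ) : ℂ)) (by simp [laR_zero]) la_sum hσ.le hθ hκ hc
    hα hακ hdens ρ₀ hρ0 hρθ (fun ρ => if ρ = ρ₀ then mu ρ₀ - 1 else mu ρ) D hδ1 hDu (Bla σ)
    (fun z hz => Bla_an hσ.le hz) 0 ?_ ?_ ?_ F1 (fun s => (s - 1) ^ 2 * riemannZeta (2 * s)) hF1
    (Bla_an0 (by linarith)) hF10 (mul_ne_zero (pow_ne_zero 2 hρne) hz2) hF ?_ ?_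
    (∑' n : ℕ, 1 / ((n : ℝ) + 1) ^ (2 * σ)) hZ0 2 ?_ ε hε
  · simp only [if_true]
    omega
  · intro ρ hρ
    simp only [if_neg hρ]
  · simp
  · filter_upwards [Bla_ev hσρ] with z hz
    rw [hz]
    simp
  · intro s hs
    have h1 : 1 < s.re := by rw [hs]; norm_num
    have hs1 : s ≠ 1 := by
      rintro rfl
      norm_num at hs
    have h2 := LS_la h1
    rw [FF_eq_ne hs1]
    unfold Bla
    rw [if_pos (by linarith)]
    linear_combination (s - 1) ^ 2 * h2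
  · intro z z1 z2
    unfold Bla
    split_ifs with hz
    · rw [norm_mul, norm_pow, mul_comm]
      refine mul_le_mul (zeta_bd (by linarith) (by rw [h2re]; linarith)) ?_ (by positivity) hZ0
      refine pow_le_pow_left₀ (norm_nonneg _) ?_ 2
      have := Complex.norm_le_abs_re_add_abs_im (z - 1)
      rw [Complex.sub_re, Complex.sub_im, Complex.one_re, Complex.one_im, sub_zero] at this
      have h3 : |z.re - 1| ≤ 1 := abs_le.2 ⟨by linarith, by linarith⟩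
      linarith
    · rw [norm_zero]
      positivity

/-- the summatory function of the Liouville function is bounded when the Mertens function is -/
theorem liou_bound {σ0 : ℝ} (h0 : 1 / 2 ≤ σ0) (hfree : ∀ s : ℂ, σ0 < s.re → riemannZeta s ≠ 0) (κ' : ℝ)
    (hκ' : σ0 < κ') : ∃ C : ℝ, ∀ y : ℝ, 1 ≤ y → |SF laR y| ≤ C * y ^ κ' := by
  obtain ⟨C, hC⟩ := H353.mertens_of_free σ0 h0 hfree κ' hκ'
  have hC0 : 0 ≤ C := by
    have := (abs_nonneg _).trans (hC 1 le_rfl)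
    simpa using this
  have hs : Summable fun n : ℕ => 1 / (n : ℝ) ^ (2 * κ') := Real.summable_one_div_nat_rpow.2 (by linarith)
  refine ⟨C * ∑' n : ℕ, 1 / (n : ℝ) ^ (2 * κ'), fun y hy => ?_⟩
  have h1 := Pool.Agent.H534R2.BH.lam_sum ⌊y⌋₊ (fun _ => 1)
  simp only [mul_one] at h1
  have h2 : ((SF laR y : ℝ) : ℂ) = ((∑ m ∈ Finset.Icc 1 ⌊y⌋₊, ∑ l ∈ Finset.Icc 1 (⌊y⌋₊ / m ^ 2),
      ((ArithmeticFunction.moebius l : ℤ) : ℝ) : ℝ) : ℂ) := by
    have e : ((SF laR y : ℝ) : ℂ) = ∑ n ∈ Finset.Icc 1 ⌊y⌋₊, (-1 : ℂ) ^ ArithmeticFunction.cardFactors n := by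
      unfold SF
      push_cast
      refine Finset.sum_congr rfl fun n hn => ?_
      rw [laR_eq (by rw [Finset.mem_Icc] at hn; omega)]
      push_cast
      rfl
    rw [e, h1]
    push_cast
    rfl
  have h3 := Complex.ofReal_injective h2
  rw [h3]
  refine (Finset.abs_sum_le_sum_abs _ _).trans ?_
  have h4 : ∀ m ∈ Finset.Icc 1 ⌊y⌋₊, |∑ l ∈ Finset.Icc 1 (⌊y⌋₊ / m ^ 2),
      ((ArithmeticFunction.moebius l : ℤ) : ℝ)| ≤ C * y ^ κ' * (1 / (m : ℝ) ^ (2 * κ')) := by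
    intro m hm
    rw [Finset.mem_Icc] at hm
    have hm0 : (0:ℝ) < m := by exact_mod_cast hm.1
    have e2 : ⌊y⌋₊ / m ^ 2 = ⌊y / (m : ℝ) ^ 2⌋₊ := by
      have := Nat.floor_div_natCast y (m ^ 2)
      push_cast at this
      exact this.symm
    rw [e2]
    rcases le_or_gt 1 (y / (m : ℝ) ^ 2) with h | h
    · refine (hC _ h).trans (le_of_eq ?_)
      rw [Real.div_rpow (by linarith) (by positivity), ← Real.rpow_natCast, ← Real.rpow_mul hm0.le]
      push_cast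
      ring
    · rw [Nat.floor_eq_zero.2 h]
      simp
      positivity
  refine (Finset.sum_le_sum h4).trans ?_
  rw [← Finset.mul_sum]
  have h5 := hs.sum_le_tsum (Finset.Icc 1 ⌊y⌋₊) (fun n _ => by positivity)
  calc C * y ^ κ' * ∑ i ∈ Finset.Icc 1 ⌊y⌋₊, 1 / (i : ℝ) ^ (2 * κ') ≤
        C * y ^ κ' * ∑' n : ℕ, 1 / (n : ℝ) ^ (2 * κ') := by
        refine mul_le_mul_of_nonneg_left h5 ?_
        have : 0 ≤ y ^ κ' := by positivity
        positivity
    _ = _ := by ring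

/-- windows from the operator bound -/
theorem win_of_op {a : ℕ → ℂ} {c κ β : ℝ} (D : ℝ → ℕ)
    (hop : ∀ ε : ℝ, 0 < ε → ∃ G : ℝ → ℝ, SP G ∧ ∀ᶠ u in atTop, ∃ (h d : ℝ) (N : ℕ) (L : List ℂ),
      0 < h ∧ h ≤ 1 / 4 ∧ 0 ≤ d ∧ (∀ r ∈ L, 0 ≤ r.re) ∧ (∀ k ∈ Finset.Icc 1 (D u + 1), ((k : ℕ) : ℂ) ∈ L) ∧
      ((N : ℝ) + 2) * h + (L.length : ℝ) * d ≤ et c κ u ∧ 2 ^ L.length * (h⁻¹ * h⁻¹) ≤ G u ∧
      Real.exp ((β - ε) * u) ≤ ‖Op h d N L (TT a) u‖) (hκ : 0 ≤ κ) (hc : 0 < c) (ε : ℝ) (hε : 0 < ε) :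
    ∀ᶠ u in atTop, ∀ cf : ℕ → ℂ, Real.exp ((β - ε) * u) ≤
      ∫ v in u..(u + et c κ u), ‖TT a v - PE (D u + 1) cf v‖ := by
  obtain ⟨G, hG, hev⟩ := hop (ε / 2) (by linarith)
  have hgr := growth (K := 1) (β := β - ε / 2) (θ := β - ε / 2 - 1) (ε := ε / 2) one_pos
    (by linarith) (by linarith) (Q1 := fun u => 2 * G u) (Q2 := fun _ => 0)
    ((SP.const (by norm_num)).mul hG) (SP.const le_rfl)
  filter_upwards [hev, hgr, eventually_ge_atTop 1] with u h1 h2 hu cf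
  obtain ⟨h, d, N, L, hh, hh1, hd, hL, hLk, hlen, hGu, hlow⟩ := h1
  have hetp := et_pos hc hκ hu
  set E := ∫ v in u..(u + et c κ u), ‖TT a v - PE (D u + 1) cf v‖ with hE
  have hE0 : 0 ≤ E := intervalIntegral.integral_nonneg (by linarith) fun v _ => norm_nonneg _
  have h3 := Op_TT_bound (a := a) (u := u) hh hd N L hL (D u + 1) hLk cf hlen
  have h4 := h2 E hE0 (by
    rw [one_mul, zero_mul, add_zero]
    refine (hlow.trans h3).trans ?_
    calc 2 ^ L.length * (2 * (E / h) / h) = 2 * (2 ^ L.length * (h⁻¹ * h⁻¹)) * E := by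
          rw [div_eq_mul_inv, div_eq_mul_inv]; ring
      _ ≤ 2 * G u * E := by gcongr)
  rwa [show β - ε / 2 - ε / 2 = β - ε by ring] at h4

end

end Pool.Agent.R303.SW
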