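import Pool.Agent.R303.SW.Cen

/-! # Large values of Moebius sums over short intervals -/

set_option autoImplicit false
set_option maxHeartbeats 4000000

open Filter Topology Set MeasureTheory
open Pool.Agent.W190 (SF SF_psi rh_free)

namespace Pool.Agent.R303.SW

noncomputable section

/-- the Moebius function -/
def muR (n : ℕ) : ℝ := ((ArithmeticFunction.moebius n : ℤ) : ℝ)

theorem mu_DF (θ κ c ε : ℝ) (hθ : 1 / 2 ≤ θ) (hκ : 0 ≤ κ) (hcond : 4 * θ * (1 - θ) * (κ + 1) ≤ 1)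
    (hc : 0 < c) (hε : 0 < ε) (hε1 : ε < 1) (hz : ∃ s : ℂ, riemannZeta s = 0 ∧ θ < s.re) :
    ∀ᶠ X : ℝ in atTop, ∀ H : ℝ, 0 < H → H ≤ X ^ (1 - ε) →
      H * X ^ θ ≤ ∫ x in X..(X + c * X / Real.log X ^ κ), |DF muR H x| := by
  obtain ⟨s, hs, hsθ⟩ := hz
  set θ' := (θ + s.re) / 2 with hθ'
  have hθ1 : θ < θ' := by rw [hθ']; linarith
  have hθ2 : θ' < s.re := by rw [hθ']; linarith
  have hcond' : 4 * θ' * (1 - θ') * (κ + 1) ≤ 1 := by
    refine le_trans ?_ hcond
    refine mul_le_mul_of_nonneg_right ?_ (by linarith)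
    nlinarith
  have h1 := mertens_short (κ := κ) (c := c / 2 ^ κ) (e0 := ε / 2) hκ (by positivity) (θ := θ')
    (by linarith) hcond' ⟨s, hs, hθ2⟩ (by linarith)
  have h2 := recentre (f := fun y H => |SF muR (y + H) - SF muR y|) (fun y H => abs_nonneg _)
    (fun H x y => by
      have h3 := (DF_II muR H 0 (x + H / 2) (y + H / 2)).comp_add_right (H / 2)
      have e : (fun x => DF muR H (x + H / 2) - 0) = fun y => SF muR (y + H) - SF muR y := by
        funext z
        unfold DF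
        rw [sub_zero, add_sub_cancel_right, add_assoc, add_halves]
      rw [e, add_sub_cancel_right, add_sub_cancel_right] at h3
      exact h3.abs) hθ1 (by linarith) hκ hc hε hε1 h1
  filter_upwards [h2] with X g1 H hH hH1
  refine (g1 H hH hH1).trans (le_of_eq ?_)
  refine intervalIntegral.integral_congr fun x _ => ?_
  have e2 : x - H / 2 + H = x + H / 2 := by ring
  simp only [DF, e2]

/-- the supremum of the real parts -/
theorem supre {θ : ℝ} (hz : ∃ s : ℂ, riemannZeta s = 0 ∧ θ < s.re) :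
    ∃ σ0 : ℝ, θ < σ0 ∧ σ0 ≤ 1 ∧ (∀ s : ℂ, σ0 < s.re → riemannZeta s ≠ 0) ∧
      ∀ e : ℝ, 0 < e → ∃ ρ : ℂ, riemannZeta ρ = 0 ∧ σ0 - e < ρ.re := by
  set A : Set ℝ := Complex.re '' {s : ℂ | riemannZeta s = 0 ∧ θ < s.re} with hA
  obtain ⟨s0, h0, h1⟩ := hz
  have hne : A.Nonempty := ⟨s0.re, s0, ⟨h0, h1⟩, rfl⟩
  have hub : ∀ x ∈ A, x ≤ 1 := by
    rintro x ⟨s, ⟨hs, _⟩, rfl⟩
    exact (Pool.Agent.W190.zero_FF hs).2.le
  have hbd : BddAbove A := ⟨1, hub⟩
  have hle : s0.re ≤ sSup A := le_csSup hbd ⟨s0, ⟨h0, h1⟩, rfl⟩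
  refine ⟨sSup A, h1.trans_le hle, csSup_le hne hub, fun s hs h => ?_, fun e he => ?_⟩
  · have h2 : θ < s.re := (h1.trans_le hle).trans hs
    exact absurd (le_csSup hbd ⟨s, ⟨h, h2⟩, rfl⟩) (not_le.2 hs)
  · obtain ⟨x, ⟨ρ, ⟨hρ, _⟩, rfl⟩, hx⟩ := exists_lt_of_lt_csSup hne (show sSup A - e < sSup A by linarith)
    exact ⟨ρ, hρ, hx⟩

/-- from a lower bound for the first moment to large values -/
lemma large_set {g : ℝ → ℝ} (hg : Measurable g) {X Y T S A : ℝ} (hXY : X ≤ Y) (hS : 0 < S)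
    (hi : IntervalIntegrable (fun x => |g x|) volume X Y)
    (hgS : ∀ x ∈ Icc X Y, |g x| ≤ S) (hA : A ≤ ∫ x in X..Y, |g x|) (hT : T * (Y - X) ≤ A / 2)
    (hT0 : 0 ≤ T) :
    A / (2 * S) ≤ (volume {x : ℝ | x ∈ Icc X Y ∧ T ≤ |g x|}).toReal := by
  set E : Set ℝ := {x : ℝ | x ∈ Icc X Y ∧ T ≤ |g x|} with hE
  have hEm : MeasurableSet E := by
    refine measurableSet_Icc.inter ?_
    exact measurableSet_le measurable_const (by simpa using hg.abs)
  have hfin : volume E ≠ ⊤ := ((measure_mono (fun x hx => hx.1)).trans_lt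
    (measure_Icc_lt_top (a := X) (b := Y))).ne
  have h1 : ∀ x ∈ Icc X Y, |g x| ≤ T + E.indicator (fun _ => S) x := by
    intro x hx
    by_cases h : T ≤ |g x|
    · rw [indicator_of_mem (show x ∈ E from ⟨hx, h⟩)]
      linarith [hgS x hx]
    · rw [indicator_of_notMem (fun h2 => h h2.2)]
      linarith [not_le.1 h]
  have hi2 : IntervalIntegrable (E.indicator (fun _ => S)) volume X Y := by
    rw [intervalIntegrable_iff]
    exact (integrableOn_const (by simp) (by simp)).indicator hEm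
  have h2 := intervalIntegral.integral_mono_on hXY hi (intervalIntegrable_const.add hi2) h1
  rw [intervalIntegral.integral_add intervalIntegrable_const hi2, intervalIntegral.integral_const,
    smul_eq_mul] at h2
  have h3 : ∫ x in X..Y, E.indicator (fun _ => S) x ≤ S * (volume E).toReal := by
    rw [intervalIntegral.integral_of_le hXY, integral_indicator hEm, setIntegral_const, smul_eq_mul,
      mul_comm, Measure.real]
    refine mul_le_mul_of_nonneg_left ?_ hS.le
    refine ENNReal.toReal_mono hfin ?_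
    exact Measure.restrict_apply_le _ _
  rw [div_le_iff₀ (by positivity)]
  nlinarith

/-- large values of Moebius sums over short intervals, on every window and for all lengths -/
theorem mu_large (θ κ c ε : ℝ) (hθ : 1 / 2 ≤ θ) (hκ : 0 ≤ κ) (hcond : 4 * θ * (1 - θ) * (κ + 1) ≤ 1)
    (hc : 0 < c) (hε : 0 < ε) (hε1 : ε < 1) (hz : ∃ s : ℂ, riemannZeta s = 0 ∧ θ < s.re) :
    ∀ᶠ X : ℝ in atTop, ∀ H : ℝ, 0 < H → H ≤ X ^ (1 - ε) →
      H * X ^ (-ε) ≤ (volume {x : ℝ | x ∈ Icc X (X + c * X / Real.log X ^ κ) ∧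
        H * X ^ (θ - 1) ≤ |DF muR H x|}).toReal := by
  obtain ⟨σ0, h1, h2, h3, h4⟩ := supre hz
  set e := min (ε / 8) ((σ0 - θ) / 2) with he
  have he0 : 0 < e := lt_min (by linarith) (by linarith)
  have hea : e ≤ ε / 8 := min_le_left _ _
  have heb : e ≤ (σ0 - θ) / 2 := min_le_right _ _
  obtain ⟨ρ, hρ, hρe⟩ := h4 e he0
  have hcond' : 4 * (σ0 - e) * (1 - (σ0 - e)) * (κ + 1) ≤ 1 := by
    refine le_trans ?_ hcond
    refine mul_le_mul_of_nonneg_right ?_ (by linarith)
    have : θ ≤ σ0 - e := by linarith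
    nlinarith
  have k1 := mu_DF (σ0 - e) κ c ε (by linarith) hκ hcond' hc hε hε1 ⟨ρ, hρ, hρe⟩
  obtain ⟨C, hC⟩ := H353.mertens_of_free σ0 (by linarith) h3 (σ0 + e) (by linarith)
  have hC' : ∀ y : ℝ, 1 ≤ y → |SF muR y| ≤ C * y ^ (σ0 + e) := hC
  have hC1 : 1 ≤ C := by
    have := hC' 1 le_rfl
    have e1 : SF muR 1 = 1 := by
      unfold SF muR
      simp
    rw [e1] at this
    simpa using this
  set K := 4 * (C * (2 + c) ^ (σ0 + e)) with hK
  have hK0 : 0 < K := by
    rw [hK]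
    have : 0 < (2 + c) ^ (σ0 + e) := by positivity
    positivity
  have t1 : ∀ᶠ X : ℝ in atTop, K ≤ X ^ (ε - 2 * e) :=
    (tendsto_rpow_atTop (by linarith)).eventually_ge_atTop _
  have t2 : ∀ᶠ X : ℝ in atTop, 2 * c ≤ X ^ (σ0 - e - θ) :=
    (tendsto_rpow_atTop (by linarith)).eventually_ge_atTop _
  filter_upwards [k1, t1, t2, eventually_ge_atTop 2, Real.tendsto_log_atTop.eventually_ge_atTop 1] with
    X g1 g2 g3 g4 g5 H hH hH1
  have hX : 0 < X := by linarith
  have hX1 : 1 ≤ X := by linarith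
  have hHX : H ≤ X := by
    refine hH1.trans ?_
    conv_rhs => rw [← Real.rpow_one X]
    exact Real.rpow_le_rpow_of_exponent_le hX1 (by linarith)
  have hw0 : 0 ≤ c * X / Real.log X ^ κ := by positivity
  have hw1 : c * X / Real.log X ^ κ ≤ c * X :=
    div_le_self (by positivity) (Real.one_le_rpow g5 hκ)
  set Y := X + c * X / Real.log X ^ κ with hY
  set S := 2 * (C * ((2 + c) * X) ^ (σ0 + e)) with hS
  have hS0 : 0 < S := by
    rw [hS]
    have : 0 < ((2 + c) * X) ^ (σ0 + e) := by positivity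
    positivity
  have hb : ∀ z : ℝ, z ≤ (2 + c) * X → |SF muR z| ≤ C * ((2 + c) * X) ^ (σ0 + e) := by
    intro z hz
    rcases le_or_gt 1 z with h | h
    · refine (hC' z h).trans ?_
      exact mul_le_mul_of_nonneg_left (Real.rpow_le_rpow (by linarith) hz (by linarith)) (by linarith)
    · have e2 : SF muR z = 0 := by
        unfold SF
        rw [Nat.floor_eq_zero.2 h]
        simp
      rw [e2, abs_zero]
      positivity
  have hgS : ∀ x ∈ Icc X Y, |DF muR H x| ≤ S := by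
    intro x hx
    unfold DF
    have h5 := hb (x + H / 2) (by have := hx.2; nlinarith)
    have h6 := hb (x - H / 2) (by have := hx.2; nlinarith)
    refine (abs_sub _ _).trans ?_
    rw [hS]
    linarith
  have key := large_set (DF_meas muR H) (X := X) (Y := Y) (T := H * X ^ (θ - 1)) (S := S)
    (A := H * X ^ (σ0 - e)) (by linarith) hS0 (by simpa using (DF_II muR H 0 X Y).abs) hgS (g1 H hH hH1)
    (by
      rw [hY, add_sub_cancel_left]
      have e3 : X ^ θ * (2 * c) ≤ X ^ (σ0 - e) := by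
        calc X ^ θ * (2 * c) ≤ X ^ θ * X ^ (σ0 - e - θ) := by gcongr
          _ = X ^ (σ0 - e) := by rw [← Real.rpow_add hX]; congr 1; ring
      have e4 : H * X ^ (θ - 1) * (c * X / Real.log X ^ κ) ≤ H * X ^ (θ - 1) * (c * X) := by gcongr
      have e5 : H * X ^ (θ - 1) * (c * X) = H * (X ^ θ * (2 * c)) / 2 := by
        rw [Real.rpow_sub hX, Real.rpow_one]
        field_simp
      rw [e5] at e4
      refine e4.trans ?_
      gcongr) (by positivity)
  refine le_trans ?_ key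
  rw [le_div_iff₀ (by positivity)]
  have e6 : 2 * S = K * X ^ (σ0 + e) := by
    rw [hS, hK, Real.mul_rpow (by linarith) hX.le]
    ring
  rw [e6]
  calc H * X ^ (-ε) * (K * X ^ (σ0 + e)) ≤ H * X ^ (-ε) * (X ^ (ε - 2 * e) * X ^ (σ0 + e)) := by gcongr
    _ = H * (X ^ (-ε) * X ^ (ε - 2 * e) * X ^ (σ0 + e)) := by ring
    _ = H * X ^ (σ0 - e) := by
        rw [← Real.rpow_add hX, ← Real.rpow_add hX]
        congr 2
        ring

end

end Pool.Agent.R303.SW
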