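import Pool.Agent.R303.SW.Lio

/-! # The Liouville function over short intervals -/

set_option autoImplicit false
set_option maxHeartbeats 4000000

open Filter Topology Set MeasureTheory
open Pool.Agent.W190

namespace Pool.Agent.R303.SW

noncomputable section

/-- the difference over an interval of length `H` -/
def DG (a : ℕ → ℝ) (H x : ℝ) : ℝ := SF a (x + H) - SF a x

lemma DG_meas (a : ℕ → ℝ) (H : ℝ) : Measurable (DG a H) := by
  unfold DG
  exact ((SF_meas a).comp (measurable_id.add_const _)).sub (SF_meas a)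

lemma DG_II (a : ℕ → ℝ) (H x y : ℝ) : IntervalIntegrable (DG a H) volume x y := by
  have h := (SF_II a (x + H) (y + H)).comp_add_right H
  rw [add_sub_cancel_right, add_sub_cancel_right] at h
  exact h.sub (SF_II a x y)

theorem liou_short {θ κ c e0 : ℝ} (hκ : 0 ≤ κ) (hc : 0 < c) (hθ : 1 / 2 ≤ θ)
    (hcond : 4 * θ * (1 - θ) * (κ + 1) ≤ 1) (hz : ∃ s : ℂ, riemannZeta s = 0 ∧ θ < s.re) (he0 : 0 < e0) :
    ∀ᶠ X : ℝ in atTop, ∀ H : ℝ, 0 < H → H ≤ X ^ (1 - e0) →
      H * X ^ θ ≤ ∫ y in X..(X + c * X / Real.log X ^ κ), |DG laR H y| := by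
  obtain ⟨σ0, ρ, h0, h1, h2, h3, h4, hfree⟩ := extract hz (e := e0 / 2) (by linarith)
  obtain ⟨hF, hρ1⟩ := zero_FF h0
  obtain ⟨σ, α, g1, g2, g3, g4, g5⟩ := params hκ hθ hcond h1 hρ1
  have key := short_low (a := laR) (k0 := 0) (β := ρ.re)
    (σ0 := σ0) (θ := θ) hκ hc he0 (by linarith) h2 h1 (fun ε hε =>
      liou_op (θ := (σ + ρ.re) / 2) (κ := κ) (c := c) (by linarith) (by linarith) hκ hc g3 g4 g5 ρ
        hF (by linarith) (fun _ => 0) (δ := 0) (by norm_num) (by simp) ε hε) (fun κ' hκ' => by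
      obtain ⟨C, hC⟩ := liou_bound (by linarith) hfree κ' hκ'
      exact ⟨C, fun y hy => by simpa using hC y hy⟩)
  filter_upwards [key] with X hX H a1 a2
  have := hX H a1 a2
  simpa [DG] using this

/-- large values of Liouville sums over short intervals, on every window and for all lengths -/
theorem la_large (θ κ c ε : ℝ) (hθ : 1 / 2 ≤ θ) (hκ : 0 ≤ κ) (hcond : 4 * θ * (1 - θ) * (κ + 1) ≤ 1)
    (hc : 0 < c) (hε : 0 < ε) (hε1 : ε < 1) (hz : ∃ s : ℂ, riemannZeta s = 0 ∧ θ < s.re) :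
    ∀ᶠ X : ℝ in atTop, ∀ H : ℝ, 0 < H → H ≤ X ^ (1 - ε) →
      H * X ^ (-ε) ≤ (volume {x : ℝ | x ∈ Icc X (X + c * X / Real.log X ^ κ) ∧
        H * X ^ (θ - 1) ≤ |DG laR H x|}).toReal := by
  obtain ⟨σ0, h1, h2, h3, h4⟩ := supre hz
  set e := min (ε / 8) ((σ0 - θ) / 2) with he
  have he0 : 0 < e := lt_min (by linarith) (by linarith)
  have hea : e ≤ ε / 8 := min_le_left _ _
  have heb : e ≤ (σ0 - θ) / 2 := min_le_right _ _
  obtain ⟨ρ, hρ, hρe⟩ := h4 e he0
  have hcond' : 4 * (σ0 - e) * (1 - (σ0 - e)) * (κ + 1) ≤ 1 := by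
    refine le_trans ?_ hcond
    refine mul_le_mul_of_nonneg_right ?_ (by linarith)
    have : θ ≤ σ0 - e := by linarith
    nlinarith
  have k1 := liou_short (κ := κ) (c := c) (θ := σ0 - e) (e0 := ε) hκ hc (by linarith) hcond' ⟨ρ, hρ, hρe⟩ hε
  obtain ⟨C, hC'⟩ := liou_bound (by linarith : 1 / 2 ≤ σ0) h3 (σ0 + e) (by linarith)
  have hC1 : 1 ≤ C := by
    have := hC' 1 le_rfl
    have e1 : SF laR 1 = 1 := by
      unfold SF
      rw [Nat.floor_one, Finset.Icc_self, Finset.sum_singleton, laR_eq one_ne_zero]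
      simp
    rw [e1] at this
    simpa using this
  set K := 4 * (C * (2 + c) ^ (σ0 + e)) with hK
  have hK0 : 0 < K := by
    rw [hK]
    have : 0 < (2 + c) ^ (σ0 + e) := by positivity
    positivity
  have t1 : ∀ᶠ X : ℝ in atTop, K ≤ X ^ (ε - 2 * e) :=
    (tendsto_rpow_atTop (by linarith)).eventually_ge_atTop _
  have t2 : ∀ᶠ X : ℝ in atTop, 2 * c ≤ X ^ (σ0 - e - θ) :=
    (tendsto_rpow_atTop (by linarith)).eventually_ge_atTop _
  filter_upwards [k1, t1, t2, eventually_ge_atTop 2, Real.tendsto_log_atTop.eventually_ge_atTop 1] with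
    X g1 g2 g3 g4 g5 H hH hH1
  have hX : 0 < X := by linarith
  have hX1 : 1 ≤ X := by linarith
  have hHX : H ≤ X := by
    refine hH1.trans ?_
    conv_rhs => rw [← Real.rpow_one X]
    exact Real.rpow_le_rpow_of_exponent_le hX1 (by linarith)
  have hw0 : 0 ≤ c * X / Real.log X ^ κ := by positivity
  have hw1 : c * X / Real.log X ^ κ ≤ c * X :=
    div_le_self (by positivity) (Real.one_le_rpow g5 hκ)
  set Y := X + c * X / Real.log X ^ κ with hY
  set S := 2 * (C * ((2 + c) * X) ^ (σ0 + e)) with hS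
  have hS0 : 0 < S := by
    rw [hS]
    have : 0 < ((2 + c) * X) ^ (σ0 + e) := by positivity
    positivity
  have hb : ∀ z : ℝ, z ≤ (2 + c) * X → |SF laR z| ≤ C * ((2 + c) * X) ^ (σ0 + e) := by
    intro z hz
    rcases le_or_gt 1 z with h | h
    · refine (hC' z h).trans ?_
      exact mul_le_mul_of_nonneg_left (Real.rpow_le_rpow (by linarith) hz (by linarith)) (by linarith)
    · have e2 : SF laR z = 0 := by
        unfold SF
        rw [Nat.floor_eq_zero.2 h]
        simp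
      rw [e2, abs_zero]
      positivity
  have hgS : ∀ x ∈ Icc X Y, |DG laR H x| ≤ S := by
    intro x hx
    unfold DG
    have h5 := hb (x + H) (by have := hx.2; nlinarith)
    have h6 := hb x (by have := hx.2; nlinarith)
    refine (abs_sub _ _).trans ?_
    rw [hS]
    linarith
  have key := large_set (DG_meas laR H) (X := X) (Y := Y) (T := H * X ^ (θ - 1)) (S := S)
    (A := H * X ^ (σ0 - e)) (by linarith) hS0 (DG_II laR H X Y).abs hgS (g1 H hH hH1)
    (by
      rw [hY, add_sub_cancel_left]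
      have e3 : X ^ θ * (2 * c) ≤ X ^ (σ0 - e) := by
        calc X ^ θ * (2 * c) ≤ X ^ θ * X ^ (σ0 - e - θ) := by gcongr
          _ = X ^ (σ0 - e) := by rw [← Real.rpow_add hX]; congr 1; ring
      have e4 : H * X ^ (θ - 1) * (c * X / Real.log X ^ κ) ≤ H * X ^ (θ - 1) * (c * X) := by gcongr
      have e5 : H * X ^ (θ - 1) * (c * X) = H * (X ^ θ * (2 * c)) / 2 := by
        rw [Real.rpow_sub hX, Real.rpow_one]
        field_simp
      rw [e5] at e4
      refine e4.trans ?_
      gcongr) (by positivity)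
  refine le_trans ?_ key
  rw [le_div_iff₀ (by positivity)]
  have e6 : 2 * S = K * X ^ (σ0 + e) := by
    rw [hS, hK, Real.mul_rpow (by linarith) hX.le]
    ring
  rw [e6]
  calc H * X ^ (-ε) * (K * X ^ (σ0 + e)) ≤ H * X ^ (-ε) * (X ^ (ε - 2 * e) * X ^ (σ0 + e)) := by gcongr
    _ = H * (X ^ (-ε) * X ^ (ε - 2 * e) * X ^ (σ0 + e)) := by ring
    _ = H * X ^ (σ0 - e) := by
        rw [← Real.rpow_add hX, ← Real.rpow_add hX]
        congr 2
        ring

end

end Pool.Agent.R303.SW
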