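import Pool.Agent.R303.SW.Cen

/-! # Primes in the residue classes to one modulus, in short intervals -/

set_option autoImplicit false
set_option maxHeartbeats 4000000

open Filter Topology Set MeasureTheory
open Pool.Agent.W190 (SF SF_psi rh_free)

namespace Pool.Agent.R303.SW

/-- the sum of `Λ(n)` over the `n ≤ x` with `n ≡ a` modulo `q` -/
noncomputable def psiAP (x : ℝ) (q a : ℕ) : ℝ :=
  ∑ n ∈ (Finset.Icc 1 ⌊x⌋₊).filter (fun n => n ≡ a [MOD q]), ArithmeticFunction.vonMangoldt n

/-- the reduced residue classes modulo `q` -/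
def red (q : ℕ) : Finset ℕ := (Finset.range q).filter (fun a => Nat.Coprime a q)

/-- the sum of `Λ(n)` over the `n ≤ x` not prime to `q` -/
noncomputable def bad (x : ℝ) (q : ℕ) : ℝ :=
  ∑ n ∈ (Finset.Icc 1 ⌊x⌋₊).filter (fun n => ¬ n.Coprime q), ArithmeticFunction.vonMangoldt n

lemma card_red (q : ℕ) : (red q).card = Nat.totient q := by
  unfold red
  rw [Nat.totient_eq_card_coprime]
  congr 1
  refine Finset.filter_congr fun a _ => ?_
  exact Nat.coprime_comm

lemma psiAP_mono (q a : ℕ) : Monotone (fun x => psiAP x q a) := by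
  intro x y hxy
  refine Finset.sum_le_sum_of_subset_of_nonneg ?_ (fun _ _ _ => ArithmeticFunction.vonMangoldt_nonneg)
  exact Finset.filter_subset_filter _ (Finset.Icc_subset_Icc le_rfl (Nat.floor_mono hxy))

lemma bad_mono (q : ℕ) : Monotone (fun x => bad x q) := by
  intro x y hxy
  refine Finset.sum_le_sum_of_subset_of_nonneg ?_ (fun _ _ _ => ArithmeticFunction.vonMangoldt_nonneg)
  exact Finset.filter_subset_filter _ (Finset.Icc_subset_Icc le_rfl (Nat.floor_mono hxy))

lemma bad_nonneg (x : ℝ) (q : ℕ) : 0 ≤ bad x q :=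
  Finset.sum_nonneg fun _ _ => ArithmeticFunction.vonMangoldt_nonneg

lemma sum_red (x : ℝ) {q : ℕ} (hq : 1 ≤ q) :
    ∑ a ∈ red q, psiAP x q a = Chebyshev.psi x - bad x q := by
  rw [← SF_psi]
  unfold SF bad psiAP
  have e1 : ∑ a ∈ red q, ∑ n ∈ (Finset.Icc 1 ⌊x⌋₊).filter (fun n => n ≡ a [MOD q]),
      ArithmeticFunction.vonMangoldt n =
      ∑ n ∈ (Finset.Icc 1 ⌊x⌋₊).filter (fun n => n.Coprime q), ArithmeticFunction.vonMangoldt n := by
    simp only [Finset.sum_filter]
    rw [Finset.sum_comm]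
    refine Finset.sum_congr rfl fun n _ => ?_
    by_cases h : n.Coprime q
    · rw [if_pos h, Finset.sum_eq_single (n % q)]
      · rw [if_pos (Nat.mod_modEq n q).symm]
      · intro b hb hbn
        rw [if_neg]
        intro h2
        apply hbn
        unfold red at hb
        rw [Finset.mem_filter, Finset.mem_range] at hb
        rw [← Nat.mod_eq_of_lt hb.1]
        exact h2.symm
      · intro h2
        exfalso
        apply h2
        unfold red
        rw [Finset.mem_filter, Finset.mem_range]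
        refine ⟨Nat.mod_lt _ (by omega), ?_⟩
        rw [Nat.Coprime, ← Nat.gcd_rec, Nat.gcd_comm]
        exact h
    · rw [if_neg h]
      refine Finset.sum_eq_zero fun b hb => ?_
      rw [if_neg]
      intro h2
      apply h
      unfold red at hb
      rw [Finset.mem_filter, Finset.mem_range] at hb
      rw [Nat.Coprime, Nat.ModEq.gcd_eq h2]
      exact hb.2
  rw [e1]
  have := Finset.sum_filter_add_sum_filter_not (Finset.Icc 1 ⌊x⌋₊) (fun n => n.Coprime q)
    (fun n => ArithmeticFunction.vonMangoldt n)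
  linarith

lemma sum_ncop (q N : ℕ) (hq : 1 ≤ q) (hN : 1 ≤ N) :
    ∑ n ∈ (Finset.Icc 1 N).filter (fun n => ¬ n.Coprime q), ArithmeticFunction.vonMangoldt n ≤
      q.primeFactors.card * Real.log N := by
  have h1 : ∑ n ∈ (Finset.Icc 1 N).filter (fun n => ¬ n.Coprime q), ArithmeticFunction.vonMangoldt n ≤
      ∑ m ∈ (q.primeFactors).biUnion fun p ↦ Finset.image (p ^ ·) (Finset.Icc 1 (p.log N)),
        ArithmeticFunction.vonMangoldt m := by
    rw [← Finset.sum_filter_ne_zero]
    apply Finset.sum_le_sum_of_subset_of_nonneg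
    · intro n hn
      rw [Finset.mem_filter, Finset.mem_filter, Finset.mem_Icc] at hn
      obtain ⟨⟨⟨h1, h2⟩, h3⟩, h4⟩ := hn
      have h5 := ArithmeticFunction.vonMangoldt_ne_zero_iff.1 h4
      obtain ⟨p, k, hp, hk, rfl⟩ := (isPrimePow_nat_iff _).1 h5
      have hpq : p ∣ q := by
        by_contra hc
        exact h3 (((Nat.Prime.coprime_iff_not_dvd hp).2 hc).pow_left k)
      rw [Finset.mem_biUnion]
      refine ⟨p, Nat.mem_primeFactors.2 ⟨hp, hpq, by omega⟩, ?_⟩
      rw [Finset.mem_image]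
      exact ⟨k, Finset.mem_Icc.2 ⟨hk, Nat.le_log_of_pow_le hp.one_lt h2⟩, rfl⟩
    · intro n _ _
      exact ArithmeticFunction.vonMangoldt_nonneg
  have h2 : ∑ m ∈ (q.primeFactors).biUnion fun p ↦ Finset.image (p ^ ·) (Finset.Icc 1 (p.log N)),
        ArithmeticFunction.vonMangoldt m = ∑ p ∈ q.primeFactors, (p.log N : ℝ) * Real.log p := by
    rw [Finset.sum_biUnion]
    · apply Finset.sum_congr rfl
      intro p hp
      have hpp := Nat.prime_of_mem_primeFactors hp
      rw [Finset.sum_image fun a _ b _ hab ↦ Nat.pow_right_injective hpp.two_le hab]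
      have : ∀ k ∈ Finset.Icc 1 (p.log N), ArithmeticFunction.vonMangoldt (p ^ k) = Real.log p := by
        intro k hk
        rw [Finset.mem_Icc] at hk
        rw [ArithmeticFunction.vonMangoldt_apply_pow (by omega),
          ArithmeticFunction.vonMangoldt_apply_prime hpp]
      rw [Finset.sum_congr rfl this]
      simp
    · intro p hp r hr hpr
      have hpp := Nat.prime_of_mem_primeFactors hp
      have hrr := Nat.prime_of_mem_primeFactors hr
      simp only [Function.onFun]
      rw [Finset.disjoint_left]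
      intro a ha hb
      rw [Finset.mem_image] at ha hb
      obtain ⟨k, hk, rfl⟩ := ha
      obtain ⟨j, hj, hjk⟩ := hb
      rw [Finset.mem_Icc] at hk hj
      apply hpr
      have h6 : r ∣ p ^ k := by
        rw [← show r ^ j = p ^ k from hjk]
        exact dvd_pow_self r (by omega)
      exact ((Nat.prime_dvd_prime_iff_eq hrr hpp).1 (hrr.dvd_of_dvd_pow h6)).symm
  have h3 : ∀ p ∈ q.primeFactors, (p.log N : ℝ) * Real.log p ≤ Real.log N := by
    intro p hp
    have hpp := Nat.prime_of_mem_primeFactors hp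
    rw [← Real.log_pow]
    apply Real.log_le_log
    · have := hpp.pos; positivity
    · exact_mod_cast Nat.pow_log_le_self p (by omega)
  calc _ ≤ _ := h1
    _ = _ := h2
    _ ≤ ∑ p ∈ q.primeFactors, Real.log N := Finset.sum_le_sum h3
    _ = q.primeFactors.card * Real.log N := by rw [Finset.sum_const, nsmul_eq_mul]

lemma omega_le (q : ℕ) (hq : 1 ≤ q) : (q.primeFactors.card : ℝ) ≤ 2 * Real.log q := by
  have h1 : 2 ^ q.primeFactors.card ≤ q := by
    calc 2 ^ q.primeFactors.card = ∏ _p ∈ q.primeFactors, 2 := by rw [Finset.prod_const]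
      _ ≤ ∏ p ∈ q.primeFactors, p := Finset.prod_le_prod' (fun p hp =>
          (Nat.prime_of_mem_primeFactors hp).two_le)
      _ ≤ q := Nat.le_of_dvd (by omega) (Nat.prod_primeFactors_dvd q)
  have h2 : (q.primeFactors.card : ℝ) * Real.log 2 ≤ Real.log q := by
    rw [← Real.log_pow]
    apply Real.log_le_log (by positivity)
    exact_mod_cast h1
  have h3 : (1 : ℝ) / 2 ≤ Real.log 2 := by have := Real.log_two_gt_d9; linarith
  have h4 : (0 : ℝ) ≤ q.primeFactors.card := by positivity
  nlinarith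

lemma bad_le {x : ℝ} (hx : 1 ≤ x) {q : ℕ} (hq : 1 ≤ q) :
    bad x q ≤ 2 * Real.log q * Real.log x := by
  have hN : 1 ≤ ⌊x⌋₊ := by
    rw [Nat.one_le_floor_iff]
    exact hx
  have h1 := sum_ncop q ⌊x⌋₊ hq hN
  have h2 := omega_le q hq
  have h3 : Real.log ⌊x⌋₊ ≤ Real.log x :=
    Real.log_le_log (by exact_mod_cast hN) (Nat.floor_le (by linarith))
  have h4 : 0 ≤ Real.log ⌊x⌋₊ := Real.log_natCast_nonneg _
  unfold bad
  refine h1.trans ?_
  have h5 : 0 ≤ Real.log q := Real.log_natCast_nonneg _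
  exact mul_le_mul h2 h3 h4 (by linarith)

lemma int_bad {q : ℕ} {X Y H : ℝ} (hH : 0 ≤ H) :
    ∫ y in X..Y, (bad (y + H) q - bad y q) ≤ H * bad (Y + H) q := by
  have hI : ∀ a b : ℝ, IntervalIntegrable (fun x => bad x q) volume a b :=
    fun a b => (bad_mono q).intervalIntegrable
  have h1 : IntervalIntegrable (fun y => bad (y + H) q) volume X Y := by
    have := (hI (X + H) (Y + H)).comp_add_right H
    simpa using this
  rw [intervalIntegral.integral_sub h1 (hI X Y),
    intervalIntegral.integral_comp_add_right (fun y => bad y q) H,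
    intervalIntegral.integral_interval_sub_interval_comm (hI _ _) (hI _ _) (hI _ _)]
  have h2 : 0 ≤ ∫ y in X..(X + H), bad y q :=
    intervalIntegral.integral_nonneg (by linarith) fun _ _ => bad_nonneg _ _
  have h3 : ∫ y in Y..(Y + H), bad y q ≤ ∫ _y in Y..(Y + H), bad (Y + H) q :=
    intervalIntegral.integral_mono_on (by linarith) (hI _ _) intervalIntegrable_const
      fun y hy => bad_mono q hy.2
  rw [intervalIntegral.integral_const, smul_eq_mul, add_sub_cancel_left] at h3
  rw [intervalIntegral.integral_symm X (X + H), intervalIntegral.integral_symm Y (Y + H)]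
  linarith

lemma ap_II (q a : ℕ) (H X Y K : ℝ) :
    IntervalIntegrable (fun y => psiAP (y + H) q a - psiAP y q a - K) volume X Y := by
  have hI : ∀ s t : ℝ, IntervalIntegrable (fun x => psiAP x q a) volume s t :=
    fun s t => (psiAP_mono q a).intervalIntegrable
  have h1 : IntervalIntegrable (fun y => psiAP (y + H) q a) volume X Y := by
    have := (hI (X + H) (Y + H)).comp_add_right H
    simpa using this
  exact (h1.sub (hI X Y)).sub intervalIntegrable_const

lemma ap_pt {q : ℕ} (hq : 1 ≤ q) (y H : ℝ) :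
    |Chebyshev.psi (y + H) - Chebyshev.psi y - H| ≤
      (∑ a ∈ red q, |psiAP (y + H) q a - psiAP y q a - H / Nat.totient q|) +
        |bad (y + H) q - bad y q| := by
  have hφ : (Nat.totient q : ℝ) ≠ 0 := by
    have := Nat.totient_pos.2 hq
    positivity
  have e1 : ∑ a ∈ red q, (psiAP (y + H) q a - psiAP y q a - H / Nat.totient q) =
      (Chebyshev.psi (y + H) - bad (y + H) q) - (Chebyshev.psi y - bad y q) - H := by
    rw [Finset.sum_sub_distrib, Finset.sum_sub_distrib, sum_red _ hq, sum_red _ hq, Finset.sum_const,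
      card_red, nsmul_eq_mul]
    field_simp
  have h1 := Finset.abs_sum_le_sum_abs (fun a => psiAP (y + H) q a - psiAP y q a - H / Nat.totient q) (red q)
  rw [e1] at h1
  have e2 : Chebyshev.psi (y + H) - Chebyshev.psi y - H =
      ((Chebyshev.psi (y + H) - bad (y + H) q) - (Chebyshev.psi y - bad y q) - H) +
        (bad (y + H) q - bad y q) := by ring
  rw [e2]
  refine (abs_add_le _ _).trans ?_
  linarith

/-- the lower bound for the errors of the primes in the residue classes, on average -/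
theorem ap_low {θ κ c e0 : ℝ} (hθ : 1 / 2 ≤ θ) (hκ : 0 ≤ κ) (hc : 0 < c)
    (hcond : 4 * θ * (1 - θ) * (κ + 1) ≤ 1) (hz : ∃ s : ℂ, riemannZeta s = 0 ∧ θ < s.re) (he0 : 0 < e0)
    (he1 : e0 < 1) :
    ∀ᶠ X : ℝ in atTop, ∀ H : ℝ, 0 < H → H ≤ X ^ (1 - e0) → ∀ q : ℕ, 1 ≤ q → (q : ℝ) ≤ X →
      H * X ^ θ ≤ ∫ y in X..(X + c * X / Real.log X ^ κ),
        ∑ a ∈ red q, |psiAP (y + H) q a - psiAP y q a - H / Nat.totient q| := by
  obtain ⟨s, hs, hsθ⟩ := hz
  set θ' := (θ + s.re) / 2 with hθ'
  have hθ1 : θ < θ' := by rw [hθ']; linarith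
  have hθ2 : θ' < s.re := by rw [hθ']; linarith
  have hcond' : 4 * θ' * (1 - θ') * (κ + 1) ≤ 1 := by
    refine le_trans ?_ hcond
    refine mul_le_mul_of_nonneg_right ?_ (by linarith)
    nlinarith
  have h1 := psi_short hκ hc (by linarith) hcond' ⟨s, hs, hθ2⟩ he0
  have t1 : ∀ᶠ X : ℝ in atTop, (2:ℝ) ≤ X ^ (θ' - θ) :=
    (tendsto_rpow_atTop (by linarith)).eventually_ge_atTop _
  have t2 : ∀ᶠ X : ℝ in atTop, 256 * (2 + c) ^ (1 / 8 : ℝ) ≤ X ^ (1 / 4 : ℝ) :=
    (tendsto_rpow_atTop (by norm_num)).eventually_ge_atTop _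
  filter_upwards [h1, t1, t2, eventually_ge_atTop (3:ℝ)] with X g1 g2 g3 g4 H hH hH1 q hq hqX
  have hX : 0 < X := by linarith
  have hlog : 1 < Real.log X := by
    rw [Real.lt_log_iff_exp_lt hX]
    have := Real.exp_one_lt_d9
    linarith
  have hlk : 1 ≤ Real.log X ^ κ := Real.one_le_rpow hlog.le hκ
  have hHX : H ≤ X := by
    refine hH1.trans ?_
    conv_rhs => rw [← Real.rpow_one X]
    exact Real.rpow_le_rpow_of_exponent_le (by linarith) (by linarith)
  set Y := X + c * X / Real.log X ^ κ with hY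
  have hw0 : 0 ≤ c * X / Real.log X ^ κ := by positivity
  have hw1 : c * X / Real.log X ^ κ ≤ c * X := div_le_self (by positivity) hlk
  have hXY : X ≤ Y := by rw [hY]; linarith
  have hYH : Y + H ≤ (2 + c) * X := by rw [hY]; linarith
  have hS : IntervalIntegrable (fun y => ∑ a ∈ red q, |psiAP (y + H) q a - psiAP y q a - H / Nat.totient q|)
      volume X Y := by
    have := IntervalIntegrable.sum (red q) (f := fun a y =>
      |psiAP (y + H) q a - psiAP y q a - H / Nat.totient q|) (μ := volume) (a := X) (b := Y)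
      (fun a _ => (ap_II q a H X Y (H / Nat.totient q)).abs)
    refine this.congr (fun y _ => ?_)
    simp
  have hBI : ∀ a b : ℝ, IntervalIntegrable (fun x => bad x q) volume a b :=
    fun a b => (bad_mono q).intervalIntegrable
  have hB : IntervalIntegrable (fun y => bad (y + H) q - bad y q) volume X Y := by
    have := (hBI (X + H) (Y + H)).comp_add_right H
    simp only [add_sub_cancel_right] at this
    exact this.sub (hBI X Y)
  have h2 : ∫ y in X..Y, |Chebyshev.psi (y + H) - Chebyshev.psi y - H| ≤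
      (∫ y in X..Y, ∑ a ∈ red q, |psiAP (y + H) q a - psiAP y q a - H / Nat.totient q|) +
        ∫ y in X..Y, (bad (y + H) q - bad y q) := by
    rw [← intervalIntegral.integral_add hS hB]
    have hpsi : ∀ a b : ℝ, IntervalIntegrable Chebyshev.psi volume a b :=
      fun a b => Chebyshev.psi_mono.intervalIntegrable
    have hP : IntervalIntegrable (fun y => Chebyshev.psi (y + H) - Chebyshev.psi y - H) volume X Y := by
      have := (hpsi (X + H) (Y + H)).comp_add_right H
      simp only [add_sub_cancel_right] at this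
      exact (this.sub (hpsi X Y)).sub intervalIntegrable_const
    refine intervalIntegral.integral_mono_on hXY hP.abs (hS.add hB) fun y _ => ?_
    refine (ap_pt hq y H).trans ?_
    rw [abs_of_nonneg (sub_nonneg.2 (bad_mono q (by linarith : y ≤ y + H)))]
  have h3 := int_bad (q := q) (X := X) (Y := Y) hH.le
  have h4 : bad (Y + H) q ≤ X ^ θ' / 2 := by
    have h5 := bad_le (x := Y + H) (by linarith) hq
    have h6 : Real.log q ≤ 8 * X ^ (1 / 8 : ℝ) := by
      have h7 : Real.log q ≤ Real.log X := Real.log_le_log (by exact_mod_cast hq) hqX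
      have h8 := Real.log_le_rpow_div hX.le (by norm_num : (0:ℝ) < 1 / 8)
      linarith
    have h7 : Real.log (Y + H) ≤ 8 * ((2 + c) ^ (1 / 8 : ℝ) * X ^ (1 / 8 : ℝ)) := by
      have h8 := Real.log_le_rpow_div (x := (2 + c) * X) (by positivity) (by norm_num : (0:ℝ) < 1 / 8)
      rw [Real.mul_rpow (by linarith) hX.le] at h8
      have h9 := Real.log_le_log (by linarith) hYH
      linarith
    have h8 : 0 ≤ Real.log (Y + H) := Real.log_nonneg (by linarith)
    have h9 : 0 ≤ Real.log q := Real.log_natCast_nonneg _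
    calc bad (Y + H) q ≤ 2 * Real.log q * Real.log (Y + H) := h5
      _ ≤ 2 * (8 * X ^ (1 / 8 : ℝ)) * (8 * ((2 + c) ^ (1 / 8 : ℝ) * X ^ (1 / 8 : ℝ))) := by gcongr
      _ = (256 * (2 + c) ^ (1 / 8 : ℝ)) * (X ^ (1 / 8 : ℝ) * X ^ (1 / 8 : ℝ)) / 2 := by ring
      _ ≤ X ^ (1 / 4 : ℝ) * (X ^ (1 / 8 : ℝ) * X ^ (1 / 8 : ℝ)) / 2 := by gcongr
      _ = X ^ (1 / 2 : ℝ) / 2 := by
          rw [← Real.rpow_add hX, ← Real.rpow_add hX]
          congr 2
          norm_num
      _ ≤ X ^ θ' / 2 := by
          have := Real.rpow_le_rpow_of_exponent_le (by linarith : (1:ℝ) ≤ X) (by linarith : (1/2:ℝ) ≤ θ')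
          linarith
  have h5 : 2 * X ^ θ ≤ X ^ θ' := by
    calc 2 * X ^ θ ≤ X ^ (θ' - θ) * X ^ θ := by gcongr
      _ = X ^ θ' := by rw [← Real.rpow_add hX]; congr 1; ring
  have h6 := g1 H hH hH1
  have h7 : H * bad (Y + H) q ≤ H * (X ^ θ' / 2) := by gcongr
  have h8 : H * (2 * X ^ θ) ≤ H * X ^ θ' := by gcongr
  linarith

end Pool.Agent.R303.SW
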