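import Pool.Agent.R303.SW.Ap

/-! # Primes in the residue classes to one modulus: mean errors and the variance on windows -/

set_option autoImplicit false
set_option maxHeartbeats 4000000

open Filter Topology Set MeasureTheory
open Pool.Agent.W190 (SF SF_psi rh_free)

namespace Pool.Agent.R303.SW

/-- the sum of the absolute values of the errors -/
noncomputable def L1 (y : ℝ) (q : ℕ) : ℝ := ∑ a ∈ red q, |psiAP y q a - y / Nat.totient q|

/-- the variance -/
noncomputable def GV (y : ℝ) (q : ℕ) : ℝ := ∑ a ∈ red q, (psiAP y q a - y / Nat.totient q) ^ 2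

lemma ap_II0 (q a : ℕ) (X Y : ℝ) :
    IntervalIntegrable (fun y => psiAP y q a - y / Nat.totient q) volume X Y :=
  (psiAP_mono q a).intervalIntegrable.sub
    ((continuous_id.div_const (Nat.totient q : ℝ)).intervalIntegrable X Y)

lemma L1_II (q : ℕ) (X Y : ℝ) : IntervalIntegrable (fun y => L1 y q) volume X Y := by
  have := IntervalIntegrable.sum (red q) (f := fun a y =>
    |psiAP y q a - y / Nat.totient q|) (μ := volume) (a := X) (b := Y)
    (fun a _ => (ap_II0 q a X Y).abs)
  refine this.congr (fun y _ => ?_)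
  simp [L1]

lemma L1_nonneg (y : ℝ) (q : ℕ) : 0 ≤ L1 y q := Finset.sum_nonneg fun _ _ => abs_nonneg _

theorem ap_mean {θ κ c : ℝ} (hθ : 1 / 2 ≤ θ) (hκ : 0 ≤ κ) (hc : 0 < c)
    (hcond : 4 * θ * (1 - θ) * (κ + 1) ≤ 1) (hz : ∃ s : ℂ, riemannZeta s = 0 ∧ θ < s.re) :
    ∀ᶠ X : ℝ in atTop, ∀ q : ℕ, 1 ≤ q → (q : ℝ) ≤ X →
      X ^ (1 + θ) ≤ ∫ y in X..(X + c * X / Real.log X ^ κ), L1 y q := by
  obtain ⟨s, hs, hsθ⟩ := hz
  set θ' := (θ + s.re) / 2 with hθ'
  have hθ1 : θ < θ' := by rw [hθ']; linarith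
  have hθ2 : θ' < s.re := by rw [hθ']; linarith
  have hs1 : s.re < 1 := (Pool.Agent.W190.zero_FF hs).2
  have hcond' : 4 * θ' * (1 - θ') * (κ + 1) ≤ 1 := by
    refine le_trans ?_ hcond
    refine mul_le_mul_of_nonneg_right ?_ (by linarith)
    nlinarith
  set e := (θ' - θ) / 2 with he
  have he0 : 0 < e := by rw [he]; linarith
  have h1 := ap_low (e0 := e) (c := c / 2) (by linarith) hκ (by linarith) hcond' ⟨s, hs, hθ2⟩ he0
    (by rw [he]; linarith)
  have t1 : ∀ᶠ X : ℝ in atTop, (2:ℝ) ≤ X ^ e :=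
    (tendsto_rpow_atTop he0).eventually_ge_atTop _
  have t2 : ∀ᶠ X : ℝ in atTop, ‖Real.log X ^ κ‖ ≤ c / 2 * ‖X ^ e‖ :=
    (isLittleO_log_rpow_rpow_atTop κ he0).def (by linarith)
  filter_upwards [h1, t1, t2, eventually_ge_atTop (3:ℝ)] with X g1 g2 g5 g3 q hq hqX
  have hX : 0 < X := by linarith
  have hlog : 1 < Real.log X := by
    rw [Real.lt_log_iff_exp_lt hX]
    have := Real.exp_one_lt_d9
    linarith
  set H := X ^ (1 - e) with hH
  have hH0 : 0 < H := by positivity
  set w := c / 2 * X / Real.log X ^ κ with hw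
  have hw0 : 0 ≤ w := by positivity
  have hsplit : X + c * X / Real.log X ^ κ = X + w + w := by rw [hw]; ring
  have hHw : H ≤ w := by
    rw [hw, le_div_iff₀ (by positivity)]
    rw [Real.norm_of_nonneg (by positivity), Real.norm_of_nonneg (by positivity)] at g5
    calc H * Real.log X ^ κ ≤ H * (c / 2 * X ^ e) := by gcongr
      _ = c / 2 * (X ^ (1 - e) * X ^ e) := by rw [hH]; ring
      _ = c / 2 * X := by rw [← Real.rpow_add hX, sub_add_cancel, Real.rpow_one]
  have h2 := g1 H hH0 le_rfl q hq hqX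
  have hA : ∫ y in X..(X + w), L1 y q ≤ ∫ y in X..(X + w + w), L1 y q := by
    rw [← intervalIntegral.integral_add_adjacent_intervals (L1_II q X (X + w)) (L1_II q (X + w) (X + w + w))]
    have : 0 ≤ ∫ y in (X + w)..(X + w + w), L1 y q :=
      intervalIntegral.integral_nonneg (by linarith) fun _ _ => L1_nonneg _ _
    linarith
  have hB : ∫ y in X..(X + w), L1 (y + H) q ≤ ∫ y in X..(X + w + w), L1 y q := by
    rw [intervalIntegral.integral_comp_add_right (fun y => L1 y q) H,
      ← intervalIntegral.integral_add_adjacent_intervals (L1_II q X (X + H)) (L1_II q (X + H) (X + w + w)),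
      ← intervalIntegral.integral_add_adjacent_intervals (L1_II q (X + H) (X + w + H))
        (L1_II q (X + w + H) (X + w + w))]
    have i1 : 0 ≤ ∫ y in X..(X + H), L1 y q :=
      intervalIntegral.integral_nonneg (by linarith) fun _ _ => L1_nonneg _ _
    have i2 : 0 ≤ ∫ y in (X + w + H)..(X + w + w), L1 y q :=
      intervalIntegral.integral_nonneg (by linarith) fun _ _ => L1_nonneg _ _
    linarith
  have hII : IntervalIntegrable (fun y => L1 (y + H) q) volume X (X + w) := by
    have := (L1_II q (X + H) (X + w + H)).comp_add_right H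
    simpa only [add_sub_cancel_right] using this
  have h3 : ∫ y in X..(X + w), ∑ a ∈ red q, |psiAP (y + H) q a - psiAP y q a - H / Nat.totient q| ≤
      (∫ y in X..(X + w), L1 (y + H) q) + ∫ y in X..(X + w), L1 y q := by
    rw [← intervalIntegral.integral_add hII (L1_II q X (X + w))]
    refine intervalIntegral.integral_mono_on (by linarith) ?_ (hII.add (L1_II q X (X + w))) fun y _ => ?_
    · have := IntervalIntegrable.sum (red q) (f := fun a y =>
        |psiAP (y + H) q a - psiAP y q a - H / Nat.totient q|) (μ := volume) (a := X) (b := X + w)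
        (fun a _ => (ap_II q a H _ _ (H / Nat.totient q)).abs)
      refine this.congr (fun y _ => ?_)
      simp
    · unfold L1
      rw [← Finset.sum_add_distrib]
      refine Finset.sum_le_sum fun a _ => ?_
      have e1 : psiAP (y + H) q a - psiAP y q a - H / Nat.totient q =
          (psiAP (y + H) q a - (y + H) / Nat.totient q) - (psiAP y q a - y / Nat.totient q) := by ring
      rw [e1]
      exact abs_sub _ _
  rw [hsplit]
  have h4 : 2 * X ^ (1 + θ) ≤ H * X ^ θ' := by
    calc 2 * X ^ (1 + θ) ≤ X ^ e * X ^ (1 + θ) := by gcongr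
      _ = H * X ^ θ' := by
          rw [hH, ← Real.rpow_add hX, ← Real.rpow_add hX]
          congr 1
          rw [he]
          ring
  linarith

theorem ap_var {θ κ c : ℝ} (hθ : 1 / 2 ≤ θ) (hκ : 0 ≤ κ) (hc : 0 < c)
    (hcond : 4 * θ * (1 - θ) * (κ + 1) ≤ 1) (hz : ∃ s : ℂ, riemannZeta s = 0 ∧ θ < s.re) :
    ∀ᶠ X : ℝ in atTop, ∀ q : ℕ, 1 ≤ q → (q : ℝ) ≤ X →
      X ^ (2 * θ + 1) / q ≤ ∫ y in X..(X + c * X / Real.log X ^ κ), GV y q := by
  obtain ⟨s, hs, hsθ⟩ := hz
  set θ' := (θ + s.re) / 2 with hθ'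
  have hθ1 : θ < θ' := by rw [hθ']; linarith
  have hθ2 : θ' < s.re := by rw [hθ']; linarith
  have hcond' : 4 * θ' * (1 - θ') * (κ + 1) ≤ 1 := by
    refine le_trans ?_ hcond
    refine mul_le_mul_of_nonneg_right ?_ (by linarith)
    nlinarith
  have h1 := ap_mean (c := c) (by linarith) hκ hc hcond' ⟨s, hs, hθ2⟩
  have t1 : ∀ᶠ X : ℝ in atTop, c ≤ X ^ (2 * (θ' - θ)) :=
    (tendsto_rpow_atTop (by linarith)).eventually_ge_atTop _
  filter_upwards [h1, t1, eventually_ge_atTop (3:ℝ)] with X g1 g2 g3 q hq hqX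
  have hX : 0 < X := by linarith
  have hlog : 1 < Real.log X := by
    rw [Real.lt_log_iff_exp_lt hX]
    have := Real.exp_one_lt_d9
    linarith
  have hlk : 1 ≤ Real.log X ^ κ := Real.one_le_rpow hlog.le hκ
  have hq0 : (0:ℝ) < q := by exact_mod_cast hq
  set Y := X + c * X / Real.log X ^ κ with hY
  have hw0 : 0 < c * X / Real.log X ^ κ := by positivity
  have hw1 : c * X / Real.log X ^ κ ≤ c * X := div_le_self (by positivity) hlk
  have hXY : X < Y := by rw [hY]; linarith
  have h2 := g1 q hq hqX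
  -- pointwise Cauchy
  have hpt : ∀ y : ℝ, L1 y q ^ 2 ≤ q * GV y q := by
    intro y
    have h3 := sq_sum_le_card_mul_sum_sq (s := red q) (f := fun a => |psiAP y q a - y / Nat.totient q|)
    rw [card_red] at h3
    have h4 : ∑ a ∈ red q, |psiAP y q a - y / Nat.totient q| ^ 2 = GV y q := by
      unfold GV
      exact Finset.sum_congr rfl fun a _ => sq_abs _
    rw [h4] at h3
    unfold L1
    refine h3.trans ?_
    have h5 : (Nat.totient q : ℝ) ≤ q := by exact_mod_cast Nat.totient_le q
    have h6 : 0 ≤ GV y q := Finset.sum_nonneg fun _ _ => sq_nonneg _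
    exact mul_le_mul_of_nonneg_right h5 h6
  have hsqI : ∀ a : ℕ, IntervalIntegrable (fun y => (psiAP y q a - y / Nat.totient q) ^ 2) volume X Y := by
    intro a
    have m1 : Measurable (fun y => psiAP y q a) := (psiAP_mono q a).measurable
    have hb : ∀ y ∈ Icc X Y, ‖(psiAP y q a - y / Nat.totient q) ^ 2‖ ≤
        (psiAP Y q a + Y / Nat.totient q) ^ 2 := by
      intro y hy
      rw [Real.norm_of_nonneg (sq_nonneg _), ← sq_abs]
      have p1 : 0 ≤ psiAP y q a := Finset.sum_nonneg fun _ _ => ArithmeticFunction.vonMangoldt_nonneg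
      have p2 := psiAP_mono q a hy.2
      have p3 : 0 ≤ y / Nat.totient q := div_nonneg (by linarith [hy.1]) (by positivity)
      have p4 : y / Nat.totient q ≤ Y / Nat.totient q := by
        have := hy.2
        gcongr
      refine pow_le_pow_left₀ (abs_nonneg _) ?_ 2
      refine (abs_sub _ _).trans ?_
      rw [abs_of_nonneg p1, abs_of_nonneg p3]
      exact add_le_add p2 p4
    rw [intervalIntegrable_iff_integrableOn_Icc_of_le hXY.le]
    refine Measure.integrableOn_of_bounded (M := (psiAP Y q a + Y / Nat.totient q) ^ 2)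
      (by rw [Real.volume_Icc]; exact ENNReal.ofReal_ne_top)
      ((m1.sub (measurable_id.div_const _)).pow_const 2).aestronglyMeasurable ?_
    exact (ae_restrict_iff' measurableSet_Icc).2 (Eventually.of_forall hb)
  have hGI : IntervalIntegrable (fun y => GV y q) volume X Y := by
    have := IntervalIntegrable.sum (red q) (f := fun a y => (psiAP y q a - y / Nat.totient q) ^ 2)
      (μ := volume) (a := X) (b := Y) (fun a _ => hsqI a)
    refine this.congr (fun y _ => ?_)
    simp [GV]
  have hLI : IntervalIntegrable (fun y => L1 y q ^ 2) volume X Y := by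
    have m1 : ∀ a, Measurable (fun y => psiAP y q a) := fun a => (psiAP_mono q a).measurable
    have m2 : Measurable (fun y => L1 y q) := by
      unfold L1
      exact Finset.measurable_fun_sum _ fun a _ => ((m1 a).sub (measurable_id.div_const _)).abs
    rw [intervalIntegrable_iff_integrableOn_Icc_of_le hXY.le] at hGI ⊢
    refine Integrable.mono' (hGI.const_mul (q : ℝ)) (m2.pow_const 2).aestronglyMeasurable ?_
    refine Eventually.of_forall fun y => ?_
    rw [Real.norm_of_nonneg (sq_nonneg _)]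
    exact hpt y
  have h3 := cs_int (g := fun y => L1 y q) hXY (L1_II q X Y).abs hLI
  have e1 : (fun y => |L1 y q|) = fun y => L1 y q := by
    funext y
    exact abs_of_nonneg (L1_nonneg y q)
  simp only [e1] at h3
  have h4 : ∫ y in X..Y, L1 y q ^ 2 ≤ q * ∫ y in X..Y, GV y q := by
    rw [← intervalIntegral.integral_const_mul]
    exact intervalIntegral.integral_mono_on hXY.le hLI (hGI.const_mul _) fun y _ => hpt y
  have hYX : Y - X = c * X / Real.log X ^ κ := by rw [hY]; ring
  have h5 : (X ^ (1 + θ')) ^ 2 ≤ (Y - X) * (q * ∫ y in X..Y, GV y q) := by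
    have h6 : (∫ y in X..Y, L1 y q) ^ 2 ≤ (Y - X) * ∫ y in X..Y, L1 y q ^ 2 := by
      have h7 : ((1 / (Y - X)) * ∫ y in X..Y, L1 y q) ^ 2 * (Y - X) ^ 2 ≤
          ((1 / (Y - X)) * ∫ y in X..Y, L1 y q ^ 2) * (Y - X) ^ 2 :=
        mul_le_mul_of_nonneg_right h3 (sq_nonneg _)
      have hne : Y - X ≠ 0 := by linarith
      have e2 : ((1 / (Y - X)) * ∫ y in X..Y, L1 y q) ^ 2 * (Y - X) ^ 2 = (∫ y in X..Y, L1 y q) ^ 2 := by
        field_simp
      have e3 : ((1 / (Y - X)) * ∫ y in X..Y, L1 y q ^ 2) * (Y - X) ^ 2 =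
          (Y - X) * ∫ y in X..Y, L1 y q ^ 2 := by
        field_simp
      rwa [e2, e3] at h7
    refine (pow_le_pow_left₀ (by positivity) h2 2).trans (h6.trans ?_)
    exact mul_le_mul_of_nonneg_left h4 (by linarith)
  have hG0 : 0 ≤ ∫ y in X..Y, GV y q :=
    intervalIntegral.integral_nonneg hXY.le fun _ _ => Finset.sum_nonneg fun _ _ => sq_nonneg _
  rw [div_le_iff₀ hq0]
  have h6 : X ^ (2 * θ + 1) * (c * X) ≤ (∫ y in X..Y, GV y q) * q * (c * X) := by
    calc X ^ (2 * θ + 1) * (c * X) ≤ X ^ (2 * θ + 1) * (X ^ (2 * (θ' - θ)) * X) := by gcongr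
      _ = (X ^ (1 + θ')) ^ 2 := by
          rw [← Real.rpow_add_one hX.ne', ← Real.rpow_add hX, ← Real.rpow_natCast, ← Real.rpow_mul hX.le]
          congr 1
          push_cast
          ring
      _ ≤ (Y - X) * (q * ∫ y in X..Y, GV y q) := h5
      _ ≤ (c * X) * (q * ∫ y in X..Y, GV y q) := by
          rw [hYX]
          gcongr
      _ = _ := by ring
  exact le_of_mul_le_mul_right h6 (by positivity)

end Pool.Agent.R303.SW
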