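import Pool.Agent.R303.SW.Band

/-! # Exponential sums near the origin -/

set_option autoImplicit false
set_option maxHeartbeats 4000000

open Filter Topology Set MeasureTheory
open Pool.Agent.W190

namespace Pool.Agent.R303.SW

noncomputable section

lemma Op_const {h : ℝ} (hh : 0 < h) (d : ℝ) (N : ℕ) (L : List ℂ) (c : ℂ) :
    Op h d N L (fun _ : ℝ => c) = fun _ => 0 := by
  have h1 := Op_PE 0 (fun _ => c) hh d N L (by simp)
  have h2 : PE 0 (fun _ => c) = fun _ : ℝ => c := by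
    funext v
    unfold PE
    simp
  rwa [h2] at h1

/-- the operator only sees the values on the window, up to a constant -/
theorem Op_cc {f g : ℝ → ℂ} (hf : LI f) (hg : LI g) (c : ℂ) {h d u η : ℝ} (hh : 0 < h) (hd : 0 ≤ d) (N : ℕ)
    (L : List ℂ) (hL : ∀ r ∈ L, 0 ≤ r.re) (hη : 0 ≤ η) (hlen : ((N : ℝ) + 2) * h + L.length * d ≤ η)
    (he : ∀ v ∈ Icc u (u + η), f v = g v + c) : Op h d N L f u = Op h d N L g u := by
  have hc : LI (fun _ : ℝ => c) := LI.of_continuous continuous_const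
  have h1 : LI (fun v => f v - g v - c) := fun x y => ((hf x y).sub (hg x y)).sub (hc x y)
  have e : f = fun v => (f v - g v - c) + (g v + c) := by
    funext v
    ring
  have h2 := Op_bound h1 (a := u) (b := u + η) hh hd N L hL (by linarith)
  have h3 : ∫ v in u..(u + η), ‖f v - g v - c‖ = 0 := by
    rw [intervalIntegral.integral_congr (g := fun _ => (0:ℝ))]
    · simp
    · intro v hv
      rw [uIcc_of_le (by linarith)] at hv
      simp only
      rw [he v hv]
      simp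
  rw [h3, zero_div, mul_zero, zero_div, mul_zero] at h2
  have h4 : Op h d N L (fun v => f v - g v - c) u = 0 := norm_le_zero_iff.1 h2
  conv_lhs => rw [e]
  rw [Op_add h1 (fun x y => (hg x y).add (hc x y)), Op_add hg hc, Op_const hh]
  simp [h4]

theorem op_band {E : ℝ → ℝ} {g : ℝ → ℂ} (hE : LI (fun v => ((E (Real.exp v) : ℝ) : ℂ)))
    (hgc : Continuous g) {h d u η D K : ℝ} (hh : 0 < h) (hh1 : h ≤ 1 / 4) (hd : 0 ≤ d) (N : ℕ) (L : List ℂ)
    (hL : ∀ r ∈ L, 0 ≤ r.re) (hη : 0 ≤ η) (hlen : ((N : ℝ) + 2) * h + L.length * d ≤ η)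
    (hg1 : ∀ w, u ≤ w → ‖∫ v in w..(w + h), ((E (Real.exp v) : ℂ) - g (Real.exp v))‖ ≤ D)
    (hg2 : ∀ w, u ≤ w → w ≤ u + η → ‖g (Real.exp w) - g (Real.exp u)‖ ≤ K) :
    ‖Op h d N L (fun v => ((E (Real.exp v) : ℝ) : ℂ)) u‖ ≤
      2 ^ L.length * (h⁻¹ * h⁻¹) * (2 * D + 2 * K) := by
  have hK0 : 0 ≤ K := (norm_nonneg _).trans (hg2 u le_rfl (by linarith))
  have hg : LI (fun v => g (Real.exp v)) := LI.of_continuous (hgc.comp Real.continuous_exp)
  have hc : LI (fun _ : ℝ => g (Real.exp u)) := LI.of_continuous continuous_const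
  have hEg : LI (fun v => ((E (Real.exp v) : ℝ) : ℂ) - g (Real.exp v)) := fun a b => (hE a b).sub (hg a b)
  have hgc' : LI (fun v => g (Real.exp v) - g (Real.exp u)) := fun a b => (hg a b).sub (hc a b)
  have e1 : (fun v => ((E (Real.exp v) : ℝ) : ℂ)) = fun v =>
      (((E (Real.exp v) : ℝ) : ℂ) - g (Real.exp v)) + ((g (Real.exp v) - g (Real.exp u)) + g (Real.exp u)) := by
    funext v
    ring
  have e2 : Op h d N L (fun v => ((E (Real.exp v) : ℝ) : ℂ)) u =
      Op h d N L (fun v => ((E (Real.exp v) : ℝ) : ℂ) - g (Real.exp v)) u +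
        Op h d N L (fun v => g (Real.exp v) - g (Real.exp u)) u := by
    conv_lhs => rw [e1]
    rw [Op_add hEg (fun a b => (hgc' a b).add (hc a b)), Op_add hgc' hc, Op_const hh]
    simp
  have hb1 : BD (avg h (fun v => ((E (Real.exp v) : ℝ) : ℂ) - g (Real.exp v))) (D / h) u (u + η - h) := by
    intro w hw1 _
    unfold avg
    rw [norm_mul, norm_inv, Complex.norm_real, Real.norm_eq_abs, abs_of_pos hh, div_eq_inv_mul]
    exact mul_le_mul_of_nonneg_left (hg1 w hw1) (inv_pos.2 hh).le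
  have hA := (((hb1.avgs hh N).dif hh).shfs hd L hL) u le_rfl (by linarith)
  have hb2 : BD (fun v => g (Real.exp v) - g (Real.exp u)) K u (u + η) := fun w hw1 hw2 => hg2 w hw1 hw2
  have hB := ((((hb2.avg hh).avgs hh N).dif hh).shfs hd L hL) u le_rfl (by linarith)
  rw [e2]
  refine (norm_add_le _ _).trans ?_
  have h2p : (0:ℝ) < 2 ^ L.length := by positivity
  have hhi : 0 < h⁻¹ := inv_pos.2 hh
  have hh2 : h⁻¹ ≤ h⁻¹ * h⁻¹ := by
    have : 1 ≤ h⁻¹ := by
      rw [one_le_inv₀ hh]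
      linarith
    nlinarith
  have hA' : ‖Op h d N L (fun v => ((E (Real.exp v) : ℝ) : ℂ) - g (Real.exp v)) u‖ ≤
      2 ^ L.length * (h⁻¹ * h⁻¹) * (2 * D) := by
    refine (show _ ≤ _ from hA).trans (le_of_eq ?_)
    field_simp
  have hB' : ‖Op h d N L (fun v => g (Real.exp v) - g (Real.exp u)) u‖ ≤
      2 ^ L.length * (h⁻¹ * h⁻¹) * (2 * K) := by
    refine (show _ ≤ _ from hB).trans ?_
    calc 2 ^ L.length * (2 * K / h) = 2 ^ L.length * (h⁻¹ * (2 * K)) := by ring
      _ ≤ 2 ^ L.length * ((h⁻¹ * h⁻¹) * (2 * K)) := by gcongr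
      _ = _ := by ring
  rw [mul_add]
  exact add_le_add hA' hB'

lemma St_eq (a : ℕ → ℝ) {R Q : ℕ} (hRQ : R ≤ Q) (y : ℝ) :
    St (Finset.Ioc R Q) a y = SF a (min y Q) - SF a (min y R) := by
  have hRQ' : (R : ℝ) ≤ Q := by exact_mod_cast hRQ
  unfold St SF
  have h1 : ⌊min y (R : ℝ)⌋₊ ≤ ⌊min y (Q : ℝ)⌋₊ := Nat.floor_mono (min_le_min_left _ hRQ')
  have e1 : Finset.Icc 1 ⌊min y (Q : ℝ)⌋₊ = Finset.Icc 1 ⌊min y (R : ℝ)⌋₊ ∪
      Finset.Ioc ⌊min y (R : ℝ)⌋₊ ⌊min y (Q : ℝ)⌋₊ := by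
    ext n
    simp only [Finset.mem_union, Finset.mem_Icc, Finset.mem_Ioc]
    omega
  rw [e1, Finset.sum_union (Finset.disjoint_left.2 fun n h1 h2 => by
    rw [Finset.mem_Icc] at h1
    rw [Finset.mem_Ioc] at h2
    omega), add_sub_cancel_left, ← Finset.sum_filter]
  refine Finset.sum_congr ?_ fun _ _ => rfl
  ext n
  rw [Finset.mem_filter, Finset.mem_Ioc, Finset.mem_Ioc]
  constructor
  · rintro ⟨⟨a1, a2⟩, a3⟩
    have hn : (R : ℝ) < n := by exact_mod_cast a1
    have hn2 : (n : ℝ) ≤ Q := by exact_mod_cast a2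
    have hn0 : n ≠ 0 := by omega
    refine ⟨?_, ?_⟩
    · rw [Nat.floor_lt' hn0]
      exact (min_le_right _ _).trans_lt hn
    · rw [Nat.le_floor_iff' hn0]
      exact le_min a3 hn2
  · rintro ⟨a1, a2⟩
    have hn0 : n ≠ 0 := by omega
    rw [Nat.le_floor_iff' hn0, le_min_iff] at a2
    rw [Nat.floor_lt' hn0, min_lt_iff] at a1
    refine ⟨⟨?_, ?_⟩, a2.1⟩
    · rcases a1 with a1 | a1
      · exact absurd a2.1 (not_le.2 a1)
      · exact_mod_cast a1
    · exact_mod_cast a2.2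

theorem band_low {θ κ c ε : ℝ} (hθ : 1 / 2 ≤ θ) (hκ : 0 ≤ κ) (hcond : 4 * θ * (1 - θ) * (κ + 1) ≤ 1)
    (hc : 0 < c) (hε : 0 < ε) (hz : ∃ s : ℂ, riemannZeta s = 0 ∧ θ < s.re) :
    ∀ᶠ X : ℝ in atTop, ∀ R Q : ℕ, (R : ℝ) ≤ X → X + c * X / Real.log X ^ κ ≤ Q → (Q : ℝ) ≤ 3 * X →
      ∀ B : ℝ, (∀ x : ℝ, |x| ≤ X ^ (-1 + ε) → ‖ES (Finset.Ioc R Q) muR x‖ ≤ B) → X ^ θ ≤ B := by
  obtain ⟨σ0, h1, h2, h3, h4⟩ := supre hz
  obtain ⟨W, φ, hWc, hWi, hW2, hW1, hφc, hφi, hφ0, hWφ⟩ := exists_kernel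
  set e0 := min ε ((σ0 - θ) / 4) with he
  have he0 : 0 < e0 := lt_min hε (by linarith)
  have hea : e0 ≤ ε := min_le_left _ _
  have heb : e0 ≤ (σ0 - θ) / 4 := min_le_right _ _
  obtain ⟨ρ, hρ, hρe⟩ := h4 (e0 / 2) (by linarith)
  obtain ⟨hF, hρ1⟩ := zero_FF hρ
  have hθρ : θ < ρ.re := by linarith
  obtain ⟨σ, α, g1, g2, g3, g4, g5⟩ := params hκ hθ hcond hθρ hρ1
  set κ' := σ0 + e0 / 8 with hκ'
  obtain ⟨C, hC⟩ := H353.mertens_of_free σ0 (by linarith) h3 κ' (by rw [hκ']; linarith)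
  have hC' : ∀ y : ℝ, 1 ≤ y → |SF muR y| ≤ C * y ^ κ' := hC
  have hC0 : 0 ≤ C := by
    have := (abs_nonneg _).trans (hC' 1 le_rfl)
    simpa using this
  obtain ⟨G, hG, hev⟩ := moebius_op (θ := (σ + ρ.re) / 2) (κ := κ) (c := c) (by linarith) (by linarith)
    hκ hc g3 g4 g5 ρ hF (by linarith) (fun _ => 0) (δ := 0) (by norm_num) (by simp) (e0 / 8) (by linarith)
  set Cφ := ∫ v, ‖φ v‖ with hCφ
  set CW := ∫ r, |r| * ‖W r‖ with hCW
  have hCφ0 : 0 ≤ Cφ := integral_nonneg fun _ => norm_nonneg _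
  have hCW0 : 0 ≤ CW := integral_nonneg fun _ => by positivity
  set Q1c : ℝ := 2 * (Cφ * c) with hQ1
  set Q2c : ℝ := 2 * (3 * (2 * (C * 3 ^ κ')) * CW) with hQ2
  have hQ10 : 0 ≤ Q1c := by positivity
  have hQ20 : 0 ≤ Q2c := by positivity
  have hgr := growth (K := 1) (β := ρ.re - e0 / 8) (θ := κ' - e0) (ε := e0 / 8) one_pos
    (by rw [hκ']; linarith) (by linarith) (Q1 := fun u => Q1c * G u) (Q2 := fun u => Q2c * G u)
    ((SP.const hQ10).mul hG) ((SP.const hQ20).mul hG)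
  filter_upwards [Real.tendsto_log_atTop.eventually hev, Real.tendsto_log_atTop.eventually hgr,
    Real.tendsto_log_atTop.eventually hG.1, eventually_ge_atTop (Real.exp 1)] with X f1 f2 f3 f4 R Q hR hQ
      hQ3 B hB
  have hX : 0 < X := (Real.exp_pos 1).trans_le f4
  have hX1 : 1 ≤ X := by
    have := Real.add_one_le_exp (1:ℝ)
    linarith
  have hu : 1 ≤ Real.log X := (Real.le_log_iff_exp_le hX).2 f4
  set u := Real.log X with hudef
  have hXu : Real.exp u = X := Real.exp_log hX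
  have het := et_pos hc hκ hu
  have hend : X + c * X / u ^ κ = Real.exp (u + et c κ u) := by
    rw [Real.exp_add, hXu]
    unfold et
    rw [Real.exp_log (by positivity), Real.rpow_neg (by linarith)]
    ring
  have hw1 : c * X / u ^ κ ≤ c * X := div_le_self (by positivity) (Real.one_le_rpow hu hκ)
  have hw0 : 0 ≤ c * X / u ^ κ := by positivity
  have hRQ : R ≤ Q := by
    have : (R : ℝ) ≤ Q := by linarith
    exact_mod_cast this
  have hB0 : 0 ≤ B := (norm_nonneg _).trans (hB 0 (by simp; positivity))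
  obtain ⟨h, d, N, L, hh, hh1, hd, hL, hLk, hlen, hGu, hlow⟩ := f1
  set H := X ^ (1 - e0) with hH
  have hH0 : 0 < H := by positivity
  set A := Finset.Ioc R Q with hA
  set E := St A muR with hE
  have hbz : ∀ z : ℝ, z ≤ 3 * X → |SF muR z| ≤ C * (3 * X) ^ κ' := by
    intro z hz
    have hκ0 : 0 ≤ κ' := by rw [hκ']; linarith
    rcases le_or_gt 1 z with h | h
    · refine (hC' z h).trans ?_
      exact mul_le_mul_of_nonneg_left (Real.rpow_le_rpow (by linarith) hz hκ0) hC0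
    · have e2 : SF muR z = 0 := by
        unfold SF
        rw [Nat.floor_eq_zero.2 h]
        simp
      rw [e2, abs_zero]
      positivity
  set S := 2 * (C * (3 * X) ^ κ') with hS
  have hES : ∀ y, |E y| ≤ S := by
    intro y
    rw [hE, hA, St_eq muR hRQ]
    have h5 := hbz (min y Q) ((min_le_right _ _).trans hQ3)
    have h6 := hbz (min y R) ((min_le_right _ _).trans (by linarith))
    refine (abs_sub _ _).trans ?_
    rw [hS]
    linarith
  have hEm : Measurable E := St_meas A muR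
  have hEI : ∀ a b, IntervalIntegrable E volume a b := St_II A muR
  set g := gg W H E with hg
  have hfreq : ∀ x : ℝ, |x| ≤ 1 / H → ‖ES A muR x‖ ≤ B := by
    intro x hx
    refine hB x (hx.trans ?_)
    rw [hH, one_div, ← Real.rpow_neg hX.le]
    exact Real.rpow_le_rpow_of_exponent_le hX1 (by linarith)
  have hlip : ∀ y y' : ℝ, y' ≤ y → ‖g y - g y'‖ ≤ Cφ * B / H * (y - y') := fun y y' hy =>
    gg_lip hWc hWi hφi hφ0 hWφ hH0 A muR hfreq hy
  have hK0 : 0 ≤ Cφ * B / H := by positivity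
  have hgc : Continuous g := by
    have : LipschitzWith (Real.toNNReal (Cφ * B / H)) g := by
      refine LipschitzWith.of_dist_le_mul fun y y' => ?_
      rw [Real.coe_toNNReal _ hK0, dist_eq_norm, Real.dist_eq]
      rcases le_total y' y with h | h
      · rw [abs_of_nonneg (by linarith)]
        exact hlip y y' h
      · rw [norm_sub_rev, abs_sub_comm, abs_of_nonneg (by linarith)]
        exact hlip y' y h
    exact this.continuous
  have hLIE : LI (fun v => ((E (Real.exp v) : ℝ) : ℂ)) := by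
    intro x y
    rw [intervalIntegrable_iff]
    refine Measure.integrableOn_of_bounded (M := S) (by simp)
      (Complex.measurable_ofReal.comp (hEm.comp Real.measurable_exp)).aestronglyMeasurable
      (ae_of_all _ fun v => ?_)
    rw [Complex.norm_real, Real.norm_eq_abs]
    exact hES _
  have hop := op_band (E := E) (g := g) (D := 3 * H * S / X * CW) (K := Cφ * B / H * (c * X)) (u := u)
    hLIE hgc hh hh1 hd N L hL het.le hlen (fun w hw => by
      refine (gg_diff hWc hWi hW2 hW1 hEm hEI hh hh1 hH0 hES).trans ?_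
      have h7 : X ≤ Real.exp w := by
        rw [← hXu]
        exact Real.exp_le_exp.2 hw
      have hS0 : 0 ≤ S := (abs_nonneg _).trans (hES 0)
      refine mul_le_mul_of_nonneg_right ?_ hCW0
      exact div_le_div_of_nonneg_left (by positivity) hX h7) (fun w hw hw2 => by
      refine (hlip _ _ (Real.exp_le_exp.2 hw)).trans ?_
      refine mul_le_mul_of_nonneg_left ?_ hK0
      have h8 : Real.exp w ≤ X + c * X / u ^ κ := by
        rw [hend]
        exact Real.exp_le_exp.2 hw2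
      rw [hXu]
      linarith)
  have hcc : Op h d N L (TT (fun n => ((ArithmeticFunction.moebius n : ℤ) : ℂ))) u =
      Op h d N L (fun v => ((E (Real.exp v) : ℝ) : ℂ)) u := by
    refine Op_cc (TT_LI _) hLIE ((SF muR R : ℝ) : ℂ) hh hd N L hL het.le hlen fun v hv => ?_
    have h9 : X ≤ Real.exp v := by
      rw [← hXu]
      exact Real.exp_le_exp.2 hv.1
    have h10 : Real.exp v ≤ Q := by
      refine le_trans ?_ hQ
      rw [hend]
      exact Real.exp_le_exp.2 hv.2
    have h11 : E (Real.exp v) = SF muR (Real.exp v) - SF muR R := by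
      rw [hE, hA, St_eq muR hRQ, min_eq_left h10, min_eq_right (by linarith)]
    rw [h11]
    have h12 := TT_real muR v
    have h13 : TT (fun n => ((ArithmeticFunction.moebius n : ℤ) : ℂ)) v = TT (fun n => ((muR n : ℝ) : ℂ)) v := by
      congr 1
    rw [h13, h12]
    push_cast
    ring
  rw [hcc] at hlow
  have hT0 : 0 ≤ 2 * (3 * H * S / X * CW) + 2 * (Cφ * B / H * (c * X)) := by
    have hS0 : 0 ≤ S := (abs_nonneg _).trans (hES 0)
    positivity
  have e5 : 2 * (3 * H * S / X * CW) = Q2c * Real.exp ((κ' - e0) * u) := by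
    have e6 : Real.exp ((κ' - e0) * u) = X ^ κ' * X ^ (1 - e0) / X := by
      rw [← Real.rpow_add hX, Real.rpow_def_of_pos hX, ← hudef]
      conv_rhs => rw [← hXu]
      rw [← Real.exp_sub]
      congr 1
      ring
    rw [e6, hS, hQ2, hH, Real.mul_rpow (by norm_num) hX.le]
    ring
  have e7 : 2 * (Cφ * B / H * (c * X)) = Q1c * (X / H * B) := by
    rw [hQ1]
    ring
  have key := f2 (X / H * B) (by positivity) (by
    rw [one_mul]
    refine (hlow.trans hop).trans ?_
    calc 2 ^ L.length * (h⁻¹ * h⁻¹) * (2 * (3 * H * S / X * CW) + 2 * (Cφ * B / H * (c * X)))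
        ≤ G u * (2 * (3 * H * S / X * CW) + 2 * (Cφ * B / H * (c * X))) :=
          mul_le_mul_of_nonneg_right hGu hT0
      _ = _ := by rw [e5, e7]; ring)
  have e8 : X / H = X ^ e0 := by
    rw [hH, div_eq_iff (by positivity), ← Real.rpow_add hX]
    rw [show e0 + (1 - e0) = 1 by ring, Real.rpow_one]
  rw [e8] at key
  have e9 : X ^ (θ + e0) ≤ Real.exp ((ρ.re - e0 / 8 - e0 / 8) * u) := by
    rw [Real.rpow_def_of_pos hX, ← hudef]
    refine Real.exp_le_exp.2 ?_
    rw [mul_comm]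
    refine mul_le_mul_of_nonneg_right ?_ (by linarith)
    linarith
  have e10 : X ^ e0 * X ^ θ ≤ X ^ e0 * B := by
    rw [← Real.rpow_add hX, add_comm]
    exact e9.trans key
  exact le_of_mul_le_mul_left e10 (by positivity)

end

end Pool.Agent.R303.SW
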