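import Pool.Agent.R303.SW.Ker
import Pool.Agent.R303.SW.Mo

/-! # Band-limited smoothing -/

set_option autoImplicit false
set_option maxHeartbeats 4000000

open Filter Topology Set MeasureTheory
open Pool.Agent.W190

namespace Pool.Agent.R303.SW

noncomputable section

/-- step functions -/
def St (A : Finset ℕ) (a : ℕ → ℝ) (y : ℝ) : ℝ := ∑ n ∈ A, if (n : ℝ) ≤ y then a n else 0

/-- the exponential sum -/
def ES (A : Finset ℕ) (a : ℕ → ℝ) (x : ℝ) : ℂ :=
  ∑ n ∈ A, (a n : ℂ) * Complex.exp (2 * Real.pi * Complex.I * n * x)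

lemma St_meas (A : Finset ℕ) (a : ℕ → ℝ) : Measurable (St A a) := by
  unfold St
  refine Finset.measurable_sum _ fun n _ => ?_
  exact Measurable.ite measurableSet_Ici measurable_const measurable_const

lemma St_II (A : Finset ℕ) (a : ℕ → ℝ) (x y : ℝ) : IntervalIntegrable (St A a) volume x y := by
  have h : ∀ z, ‖St A a z‖ ≤ ∑ n ∈ A, |a n| := by
    intro z
    unfold St
    refine (norm_sum_le _ _).trans (Finset.sum_le_sum fun n _ => ?_)
    split_ifs
    · exact le_rfl
    · simp
  rw [intervalIntegrable_iff]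
  refine Measure.integrableOn_of_bounded (M := ∑ n ∈ A, |a n|) (by simp)
    (St_meas A a).aestronglyMeasurable (ae_of_all _ h)

/-- the smoothed step function -/
def gg (W : ℝ → ℂ) (H : ℝ) (E : ℝ → ℝ) (y : ℝ) : ℂ := ∫ r, W r * (E (y - H * r) : ℂ)

lemma gg_St {W : ℝ → ℂ} (hW : Integrable W) {H : ℝ} (hH : 0 < H) (A : Finset ℕ) (a : ℕ → ℝ) (y : ℝ) :
    gg W H (St A a) y = ∑ n ∈ A, (a n : ℂ) * ∫ r in Iic ((y - n) / H), W r := by
  unfold gg
  have h1 : ∀ r : ℝ, W r * ((St A a (y - H * r) : ℝ) : ℂ) =
      ∑ n ∈ A, (a n : ℂ) * (Iic ((y - n) / H)).indicator W r := by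
    intro r
    unfold St
    push_cast
    rw [Finset.mul_sum]
    refine Finset.sum_congr rfl fun n _ => ?_
    have h2 : (n : ℝ) ≤ y - H * r ↔ r ∈ Iic ((y - n) / H) := by
      rw [mem_Iic, le_div_iff₀ hH]
      constructor <;> intro h <;> linarith
    by_cases h3 : (n : ℝ) ≤ y - H * r
    · rw [if_pos h3, indicator_of_mem (h2.1 h3)]
      ring
    · rw [if_neg h3, indicator_of_notMem (fun h => h3 (h2.2 h))]
      simp
  simp only [h1]
  rw [integral_finsetSum]
  · refine Finset.sum_congr rfl fun n _ => ?_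
    rw [integral_const_mul, integral_indicator measurableSet_Iic]
  · intro n _
    exact (hW.indicator measurableSet_Iic).const_mul _

/-- the Lipschitz bound -/
lemma gg_lip {W φ : ℝ → ℂ} (hWc : Continuous W) (hW : Integrable W) (hφ : Integrable φ)
    (hφ0 : ∀ v : ℝ, 1 < |v| → φ v = 0)
    (hWφ : ∀ t : ℝ, W t = ∫ v, φ v * Complex.exp (-(2 * Real.pi * v * t) * Complex.I))
    {H B : ℝ} (hH : 0 < H) (A : Finset ℕ) (a : ℕ → ℝ)
    (hB : ∀ x : ℝ, |x| ≤ 1 / H → ‖ES A a x‖ ≤ B) {y y' : ℝ} (hy : y' ≤ y) :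
    ‖gg W H (St A a) y - gg W H (St A a) y'‖ ≤ (∫ v, ‖φ v‖) * B / H * (y - y') := by
  have hB0 : 0 ≤ B := (norm_nonneg _).trans (hB 0 (by simp; positivity))
  have hsup : ∀ t : ℝ, ‖∑ n ∈ A, (a n : ℂ) * W (t / H - n / H)‖ ≤ (∫ v, ‖φ v‖) * B := by
    intro t
    have h1 : ∑ n ∈ A, (a n : ℂ) * W (t / H - n / H) =
        ∫ v, φ v * (Complex.exp (-(2 * Real.pi * v * (t / H)) * Complex.I) * ES A a (v / H)) := by
      have h2 : ∀ n ∈ A, (a n : ℂ) * W (t / H - n / H) =
          ∫ v, (a n : ℂ) * (φ v * Complex.exp (-(2 * Real.pi * v * ((t / H - n / H : ℝ) : ℂ)) * Complex.I)) := by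
        intro n _
        rw [hWφ, integral_const_mul]
        
      rw [Finset.sum_congr rfl h2, ← integral_finsetSum]
      · refine integral_congr_ae (ae_of_all _ fun v => ?_)
        simp only
        unfold ES
        rw [Finset.mul_sum, Finset.mul_sum]
        refine Finset.sum_congr rfl fun n _ => ?_
        have e : Complex.exp (-(2 * Real.pi * v * ((t / H - n / H : ℝ) : ℂ)) * Complex.I) =
            Complex.exp (-(2 * Real.pi * v * (t / H)) * Complex.I) *
              Complex.exp (2 * Real.pi * Complex.I * n * ((v / H : ℝ) : ℂ)) := by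
          rw [← Complex.exp_add]
          congr 1
          push_cast
          ring
        rw [e]
        ring
      · intro n _
        refine Integrable.const_mul ?_ _
        refine hφ.mul_bdd (c := 1) ?_ ?_
        · exact Continuous.aestronglyMeasurable (by fun_prop)
        · refine ae_of_all _ fun v => ?_
          have : (-(2 * Real.pi * v * ((t / H - n / H : ℝ) : ℂ)) * Complex.I) =
              ((-(2 * Real.pi * v * (t / H - n / H)) : ℝ) : ℂ) * Complex.I := by
            push_cast
            ring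
          rw [this, Complex.norm_exp_ofReal_mul_I]
    rw [h1, ← integral_mul_const]
    refine norm_integral_le_of_norm_le (hφ.norm.mul_const B) (ae_of_all _ fun v => ?_)
    rw [norm_mul, norm_mul]
    have h3 : ‖Complex.exp (-(2 * Real.pi * v * (t / H)) * Complex.I)‖ = 1 := by
      have : (-(2 * Real.pi * (v : ℂ) * (t / H)) * Complex.I) =
          ((-(2 * Real.pi * v * (t / H)) : ℝ) : ℂ) * Complex.I := by
        push_cast
        ring
      rw [this, Complex.norm_exp_ofReal_mul_I]
    rw [h3, one_mul]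
    by_cases hv : 1 < |v|
    · rw [hφ0 v hv]
      simp
    · refine mul_le_mul_of_nonneg_left (hB _ ?_) (norm_nonneg _)
      rw [abs_div, abs_of_pos hH]
      exact div_le_div_of_nonneg_right (not_lt.1 hv) hH.le
  have h4 : gg W H (St A a) y - gg W H (St A a) y' =
      ∫ t in y'..y, (H : ℂ)⁻¹ * ∑ n ∈ A, (a n : ℂ) * W (t / H - n / H) := by
    rw [gg_St hW hH, gg_St hW hH, ← Finset.sum_sub_distrib, intervalIntegral.integral_const_mul,
      intervalIntegral.integral_finset_sum, Finset.mul_sum]
    · refine Finset.sum_congr rfl fun n _ => ?_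
      rw [← mul_sub, intervalIntegral.integral_Iic_sub_Iic hW.integrableOn hW.integrableOn,
        intervalIntegral.integral_const_mul, intervalIntegral.integral_comp_div_sub _ hH.ne']
      rw [Complex.real_smul, sub_div, sub_div]
      have : (H : ℂ) ≠ 0 := by exact_mod_cast hH.ne'
      field_simp
    · intro n _
      exact (Continuous.intervalIntegrable (by fun_prop) _ _)
  rw [h4]
  have h5 := intervalIntegral.norm_integral_le_of_norm_le_const (a := y') (b := y)
    (C := (∫ v, ‖φ v‖) * B / H)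
    (f := fun t : ℝ => (H : ℂ)⁻¹ * ∑ n ∈ A, (a n : ℂ) * W (t / H - n / H)) (fun t _ => by
      rw [norm_mul, norm_inv, Complex.norm_real, Real.norm_eq_abs, abs_of_pos hH]
      exact (mul_le_mul_of_nonneg_left (hsup t) (inv_pos.2 hH).le).trans
        (le_of_eq (div_eq_inv_mul _ _).symm))
  rwa [abs_of_nonneg (by linarith)] at h5

/-- a shift in a logarithmic integral, both directions -/
lemma shift_abs {E : ℝ → ℝ} (hE : ∀ a b, IntervalIntegrable E volume a b) {Y Y' r S : ℝ} (hY : 0 < Y)
    (hYY : Y ≤ Y') (hY2 : Y' ≤ 2 * Y) (hS : ∀ y, |E y| ≤ S) :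
    |(∫ y in Y..Y', E y / y) - ∫ y in Y..Y', E (y - r) / y| ≤ 3 * |r| * S / Y := by
  rcases le_total r 0 with h | h
  · have h1 := shift_log hE (r := -r) hY hYY hY2 (by linarith) (S := S) fun y _ => hS y
    rw [abs_of_nonpos h]
    simpa [sub_eq_add_neg] using h1
  · have hE2 : ∀ a b, IntervalIntegrable (fun y => E (y - r)) volume a b := fun a b => by
      have := (hE (a - r) (b - r)).comp_sub_right r
      simpa using this
    have h1 := shift_log hE2 (r := r) hY hYY hY2 h (S := S) fun y _ => hS _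
    simp only [add_sub_cancel_right] at h1
    rw [abs_of_nonneg h, abs_sub_comm]
    exact h1

/-- the local mean of `E - g` -/
lemma gg_diff {W : ℝ → ℂ} (hWc : Continuous W) (hW : Integrable W)
    (hW2 : Integrable (fun r : ℝ => |r| * ‖W r‖)) (hW1 : ∫ r, W r = 1) {E : ℝ → ℝ} (hm : Measurable E)
    (hE : ∀ a b, IntervalIntegrable E volume a b) {w h H S : ℝ} (hh : 0 < h) (hh1 : h ≤ 1 / 4) (hH : 0 < H)
    (hS : ∀ y, |E y| ≤ S) :
    ‖∫ v in w..(w + h), ((E (Real.exp v) : ℂ) - gg W H E (Real.exp v))‖ ≤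
      3 * H * S / Real.exp w * ∫ r, |r| * ‖W r‖ := by
  set Y := Real.exp w with hY
  set Y' := Real.exp (w + h) with hY'
  have hY0 : 0 < Y := Real.exp_pos _
  have hYY : Y ≤ Y' := Real.exp_le_exp.2 (by linarith)
  have hY2 : Y' ≤ 2 * Y := by
    rw [hY', Real.exp_add, ← hY, mul_comm]
    refine mul_le_mul_of_nonneg_right ?_ hY0.le
    have h1 : Real.exp h ≤ Real.exp (1 / 2) := Real.exp_le_exp.2 (by linarith)
    have h4 : Real.exp (1 / 2) * Real.exp (1 / 2) = Real.exp 1 := by
      rw [← Real.exp_add]; norm_num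
    have h5 := Real.exp_one_lt_d9
    have h6 := Real.exp_pos (1 / 2)
    nlinarith
  have hS0 : 0 ≤ S := (abs_nonneg _).trans (hS 0)
  have hle : w ≤ w + h := by linarith
  have hcomp : ∀ y : ℝ, Integrable fun r => W r * ((E (y - H * r) : ℝ) : ℂ) := by
    intro y
    refine hW.mul_bdd (c := S) ?_ (ae_of_all _ fun r => ?_)
    · exact (Complex.measurable_ofReal.comp (hm.comp (by fun_prop))).aestronglyMeasurable
    · rw [Complex.norm_real, Real.norm_eq_abs]
      exact hS _
  have h1 : ∀ v : ℝ, (E (Real.exp v) : ℂ) - gg W H E (Real.exp v) =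
      ∫ r, W r * ((E (Real.exp v) - E (Real.exp v - H * r) : ℝ) : ℂ) := by
    intro v
    unfold gg
    have e : (E (Real.exp v) : ℂ) = ∫ r, W r * ((E (Real.exp v) : ℝ) : ℂ) := by
      rw [integral_mul_const, hW1, one_mul]
    conv_lhs => rw [e]
    rw [← integral_sub (hW.mul_const _) (hcomp _)]
    refine integral_congr_ae (ae_of_all _ fun r => ?_)
    push_cast
    ring
  have hprod : Integrable (Function.uncurry fun (v r : ℝ) =>
      W r * ((E (Real.exp v) - E (Real.exp v - H * r) : ℝ) : ℂ))
      ((volume.restrict (Ioc w (w + h))).prod volume) := by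
    have h2 : Integrable (fun p : ℝ × ℝ => (1 : ℂ) * W p.2)
        ((volume.restrict (Ioc w (w + h))).prod volume) :=
      Integrable.mul_prod (integrable_const (1:ℂ)) hW
    have h3 : Integrable (fun p : ℝ × ℝ => W p.2) ((volume.restrict (Ioc w (w + h))).prod volume) := by
      simpa using h2
    refine h3.mul_bdd (c := S + S) ?_ (ae_of_all _ fun p => ?_)
    · refine (Complex.measurable_ofReal.comp ?_).aestronglyMeasurable
      exact (hm.comp (Real.measurable_exp.comp measurable_fst)).sub
        (hm.comp ((Real.measurable_exp.comp measurable_fst).sub (measurable_snd.const_mul H)))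
    · rw [Complex.norm_real, Real.norm_eq_abs]
      exact (abs_sub _ _).trans (add_le_add (hS _) (hS _))
  simp only [h1]
  rw [intervalIntegral.integral_of_le hle, integral_integral_swap hprod]
  rw [← integral_const_mul]
  refine norm_integral_le_of_norm_le (hW2.const_mul _) (ae_of_all _ fun r => ?_)
  rw [integral_const_mul, norm_mul]
  have h4 : ∫ v in Ioc w (w + h), ((E (Real.exp v) - E (Real.exp v - H * r) : ℝ) : ℂ) =
      (((∫ y in Y..Y', E y / y) - ∫ y in Y..Y', E (y - H * r) / y : ℝ) : ℂ) := by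
    rw [← intervalIntegral.integral_of_le hle, intervalIntegral.integral_ofReal, intervalIntegral.integral_sub]
    · rw [exp_change' E hle, exp_change' (fun y => E (y - H * r)) hle]
    · rw [intervalIntegrable_iff_integrableOn_Ioc_of_le hle]
      refine Measure.integrableOn_of_bounded (M := S) (by simp)
        (hm.comp Real.measurable_exp).aestronglyMeasurable (ae_of_all _ fun v => hS _)
    · rw [intervalIntegrable_iff_integrableOn_Ioc_of_le hle]
      refine Measure.integrableOn_of_bounded (M := S) (by simp)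
        (hm.comp (Real.measurable_exp.sub_const _)).aestronglyMeasurable (ae_of_all _ fun v => hS _)
  rw [h4, Complex.norm_real, Real.norm_eq_abs]
  have h5 := shift_abs hE (r := H * r) hY0 hYY hY2 hS
  rw [abs_mul, abs_of_pos hH] at h5
  calc ‖W r‖ * |(∫ y in Y..Y', E y / y) - ∫ y in Y..Y', E (y - H * r) / y|
      ≤ ‖W r‖ * (3 * (H * |r|) * S / Y) := mul_le_mul_of_nonneg_left h5 (norm_nonneg _)
    _ = 3 * H * S / Y * (|r| * ‖W r‖) := by ring

end

end Pool.Agent.R303.SW
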