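import Pool.Agent.W190.A14

/-! # From the operator to differences over short intervals -/

set_option autoImplicit false
set_option maxHeartbeats 4000000

open Complex Filter Topology Set Metric MeasureTheory
open Pool.Agent.W190

namespace Pool.Agent.R303.SW

noncomputable section

/-- the mean of `E` over `[e^v, e^v + H]` -/
def mH (E : ℝ → ℝ) (H v : ℝ) : ℝ := H⁻¹ * ∫ y in (Real.exp v)..(Real.exp v + H), E y

lemma mH_sub {E : ℝ → ℝ} (hE : ∀ a b, IntervalIntegrable E volume a b) {H : ℝ} (hH : 0 < H)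
    {w w' : ℝ} (hw : w ≤ w') :
    |mH E H w' - mH E H w| ≤ H⁻¹ * ∫ y in (Real.exp w)..(Real.exp w'), |E (y + H) - E y| := by
  set Y := Real.exp w with hY
  set Y' := Real.exp w' with hY'
  have hYY : Y ≤ Y' := Real.exp_le_exp.2 hw
  have hEs : ∀ a b, IntervalIntegrable (fun y => E (y + H)) volume a b := fun a b => by
    have := (hE (a + H) (b + H)).comp_add_right H
    simpa using this
  have e1 : (∫ y in Y'..(Y' + H), E y) - ∫ y in Y..(Y + H), E y =
      ∫ y in Y..Y', (E (y + H) - E y) := by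
    rw [intervalIntegral.integral_sub (hEs _ _) (hE _ _), intervalIntegral.integral_comp_add_right]
    have h1 := intervalIntegral.integral_add_adjacent_intervals (hE Y Y') (hE Y' (Y' + H))
    have h2 := intervalIntegral.integral_add_adjacent_intervals (hE Y (Y + H)) (hE (Y + H) (Y' + H))
    linarith
  unfold mH
  rw [← mul_sub, ← hY, ← hY', e1, abs_mul, abs_of_pos (inv_pos.2 hH)]
  exact mul_le_mul_of_nonneg_left (intervalIntegral.abs_integral_le_integral_abs hYY) (inv_pos.2 hH).le

/-- a shift in a logarithmic integral -/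
lemma shift_log {E : ℝ → ℝ} (hE : ∀ a b, IntervalIntegrable E volume a b) {Y Y' r S : ℝ} (hY : 0 < Y)
    (hYY : Y ≤ Y') (hY2 : Y' ≤ 2 * Y) (hr : 0 ≤ r) (hS : ∀ y ∈ Icc Y (Y' + r), |E y| ≤ S) :
    |(∫ y in Y..Y', E y / y) - ∫ y in Y..Y', E (y + r) / y| ≤ 3 * r * S / Y := by
  have hS0 : 0 ≤ S := (abs_nonneg _).trans (hS Y ⟨le_rfl, by linarith⟩)
  have hcont : ∀ a b s : ℝ, 0 < a → a ≤ b → s < a →
      ContinuousOn (fun y : ℝ => (y - s)⁻¹) (uIcc a b) := by
    intro a b s ha hab hs
    rw [uIcc_of_le hab]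
    exact ContinuousOn.inv₀ (by fun_prop) fun y hy => by linarith [hy.1]
  have hi1 : ∀ a b : ℝ, 0 < a → a ≤ b → IntervalIntegrable (fun y => E y / y) volume a b := by
    intro a b ha hab
    have := (hE a b).mul_continuousOn (hcont a b 0 ha hab ha)
    simpa [div_eq_mul_inv] using this
  have e1 : ∫ y in Y..Y', E (y + r) / y = ∫ t in (Y + r)..(Y' + r), E t / (t - r) := by
    rw [← intervalIntegral.integral_comp_add_right (fun t => E t / (t - r)) r]
    simp only [add_sub_cancel_right]
  have hi2 : IntervalIntegrable (fun t => E t / (t - r)) volume (Y + r) (Y' + r) := by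
    have := (hE (Y + r) (Y' + r)).mul_continuousOn (hcont (Y + r) (Y' + r) r (by linarith) (by linarith)
      (by linarith))
    simpa [div_eq_mul_inv] using this
  have e2 : (∫ y in Y..Y', E y / y) - ∫ t in (Y + r)..(Y' + r), E t / (t - r) =
      (∫ y in Y..(Y + r), E y / y) - (∫ y in Y'..(Y' + r), E y / y) +
        ∫ t in (Y + r)..(Y' + r), (E t / t - E t / (t - r)) := by
    rw [intervalIntegral.integral_sub (hi1 _ _ (by linarith) (by linarith)) hi2]
    have h1 := intervalIntegral.integral_add_adjacent_intervals (hi1 Y Y' hY hYY)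
      (hi1 Y' (Y' + r) (by linarith) (by linarith))
    have h2 := intervalIntegral.integral_add_adjacent_intervals (hi1 Y (Y + r) hY (by linarith))
      (hi1 (Y + r) (Y' + r) (by linarith) (by linarith))
    linarith
  have b1 : |∫ y in Y..(Y + r), E y / y| ≤ r * S / Y := by
    have := intervalIntegral.norm_integral_le_of_norm_le_const (a := Y) (b := Y + r) (C := S / Y)
      (f := fun y => E y / y) (fun y hy => by
        rw [uIoc_of_le (by linarith)] at hy
        rw [Real.norm_eq_abs, abs_div, abs_of_pos (by linarith [hy.1] : 0 < y)]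
        exact div_le_div₀ hS0 (hS y ⟨hy.1.le, by linarith [hy.2]⟩) hY hy.1.le)
    rw [Real.norm_eq_abs, add_sub_cancel_left, abs_of_nonneg hr] at this
    refine this.trans (le_of_eq ?_)
    ring
  have b2 : |∫ y in Y'..(Y' + r), E y / y| ≤ r * S / Y := by
    have := intervalIntegral.norm_integral_le_of_norm_le_const (a := Y') (b := Y' + r) (C := S / Y)
      (f := fun y => E y / y) (fun y hy => by
        rw [uIoc_of_le (by linarith)] at hy
        rw [Real.norm_eq_abs, abs_div, abs_of_pos (by linarith [hy.1] : 0 < y)]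
        exact div_le_div₀ hS0 (hS y ⟨by linarith [hy.1], by linarith [hy.2]⟩) hY (by linarith [hy.1]))
    rw [Real.norm_eq_abs, add_sub_cancel_left, abs_of_nonneg hr] at this
    refine this.trans (le_of_eq ?_)
    ring
  have b3 : |∫ t in (Y + r)..(Y' + r), (E t / t - E t / (t - r))| ≤ r * S / Y := by
    have := intervalIntegral.norm_integral_le_of_norm_le_const (a := Y + r) (b := Y' + r)
      (C := S * r / Y ^ 2) (f := fun t => E t / t - E t / (t - r)) (fun t ht => by
        rw [uIoc_of_le (by linarith)] at ht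
        have t1 : 0 < t - r := by linarith [ht.1]
        have t2 : 0 < t := by linarith
        have e3 : E t / t - E t / (t - r) = -(E t * r / (t * (t - r))) := by
          field_simp
          ring
        rw [Real.norm_eq_abs, e3, abs_neg, abs_div, abs_mul, abs_of_nonneg hr,
          abs_of_pos (mul_pos t2 t1)]
        refine div_le_div₀ (by positivity) ?_ (by positivity) ?_
        · exact mul_le_mul_of_nonneg_right (hS t ⟨by linarith [ht.1], ht.2⟩) hr
        · rw [sq]
          exact mul_le_mul (by linarith [ht.1]) (by linarith [ht.1]) hY.le t2.le)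
    rw [Real.norm_eq_abs] at this
    refine this.trans ?_
    rw [show Y' + r - (Y + r) = Y' - Y by ring, abs_of_nonneg (by linarith), div_mul_eq_mul_div,
      div_le_div_iff₀ (by positivity) hY]
    have h3 : S * r * (Y' - Y) ≤ S * r * Y := mul_le_mul_of_nonneg_left (by linarith) (by positivity)
    calc S * r * (Y' - Y) * Y ≤ S * r * Y * Y := mul_le_mul_of_nonneg_right h3 hY.le
      _ = r * S * Y ^ 2 := by ring
  rw [e1, e2]
  have e4 : 3 * r * S / Y = r * S / Y + r * S / Y + r * S / Y := by ring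
  rw [e4]
  refine (abs_add_le _ _).trans (add_le_add ((abs_sub _ _).trans (add_le_add b1 b2)) b3)

lemma exp_change' (g : ℝ → ℝ) {u w : ℝ} (h : u ≤ w) :
    ∫ v in u..w, g (Real.exp v) = ∫ y in (Real.exp u)..(Real.exp w), g y / y := by
  rw [exp_change (fun y => g y / y) h, intervalIntegral.integral_of_le h]
  refine setIntegral_congr_fun measurableSet_Ioc fun v _ => ?_
  have := (Real.exp_pos v).ne'
  field_simp

/-- the local mean of `E (e^v) - mH E H v` is small -/
lemma avg_diff {E : ℝ → ℝ} (hm : Measurable E) (hE : ∀ a b, IntervalIntegrable E volume a b)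
    {w h H S : ℝ} (hh : 0 < h) (hh1 : h ≤ 1 / 4) (hH : 0 < H)
    (hS : ∀ y ∈ Icc (Real.exp w) (Real.exp (w + h) + H), |E y| ≤ S) :
    |∫ v in w..(w + h), (E (Real.exp v) - mH E H v)| ≤ 3 * H * S / Real.exp w := by
  set Y := Real.exp w with hY
  set Y' := Real.exp (w + h) with hY'
  have hY0 : 0 < Y := Real.exp_pos _
  have hYY : Y ≤ Y' := Real.exp_le_exp.2 (by linarith)
  have hY2 : Y' ≤ 2 * Y := by
    rw [hY', Real.exp_add, ← hY, mul_comm]
    refine mul_le_mul_of_nonneg_right ?_ hY0.le
    have h1 : Real.exp h ≤ Real.exp (1 / 2) := Real.exp_le_exp.2 (by linarith)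
    have h4 : Real.exp (1 / 2) * Real.exp (1 / 2) = Real.exp 1 := by
      rw [← Real.exp_add]; norm_num
    have h5 := Real.exp_one_lt_d9
    have h6 := Real.exp_pos (1 / 2)
    nlinarith
  have hS0 : 0 ≤ S := (abs_nonneg _).trans (hS Y ⟨le_rfl, by linarith⟩)
  -- the mean as an integral over shifts
  have hmH : ∀ v, mH E H v = H⁻¹ * ∫ r in (0:ℝ)..H, E (Real.exp v + r) := by
    intro v
    unfold mH
    congr 1
    rw [intervalIntegral.integral_comp_add_left (fun y => E y) (Real.exp v), add_zero]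
  have hmem : ∀ v ∈ Ioc w (w + h), ∀ r ∈ Ioc (0:ℝ) H, Real.exp v + r ∈ Icc Y (Y' + H) := by
    intro v hv r hr
    have h1 : Y ≤ Real.exp v := Real.exp_le_exp.2 hv.1.le
    have h2 : Real.exp v ≤ Y' := Real.exp_le_exp.2 hv.2
    exact ⟨by linarith [hr.1], by linarith [hr.2]⟩
  have hprod : Integrable (Function.uncurry fun (v r : ℝ) => E (Real.exp v + r))
      ((volume.restrict (Ioc w (w + h))).prod (volume.restrict (Ioc (0:ℝ) H))) := by
    rw [Measure.prod_restrict]
    refine Measure.integrableOn_of_bounded (M := S) ?_ ?_ ?_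
    · rw [Measure.prod_prod, Real.volume_Ioc, Real.volume_Ioc]
      exact ENNReal.mul_ne_top ENNReal.ofReal_ne_top ENNReal.ofReal_ne_top
    · apply Measurable.aestronglyMeasurable
      exact hm.comp ((Real.measurable_exp.comp measurable_fst).add measurable_snd)
    · filter_upwards [ae_restrict_mem (measurableSet_Ioc.prod measurableSet_Ioc)] with p hp
      exact hS _ (hmem p.1 hp.1 p.2 hp.2)
  have hle : w ≤ w + h := by linarith
  have hi1 : IntervalIntegrable (fun v => E (Real.exp v)) volume w (w + h) := by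
    rw [intervalIntegrable_iff_integrableOn_Ioc_of_le hle]
    refine Measure.integrableOn_of_bounded (M := S) (by simp)
      (hm.comp Real.measurable_exp).aestronglyMeasurable ?_
    filter_upwards [ae_restrict_mem measurableSet_Ioc] with v hv
    have h1 : Y ≤ Real.exp v := Real.exp_le_exp.2 hv.1.le
    have h2 : Real.exp v ≤ Y' := Real.exp_le_exp.2 hv.2
    exact hS _ ⟨h1, by linarith⟩
  have hi2 : IntervalIntegrable (fun v => mH E H v) volume w (w + h) := by
    simp only [hmH]
    rw [intervalIntegrable_iff_integrableOn_Ioc_of_le hle]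
    simp only [intervalIntegral.integral_of_le hH.le]
    exact (hprod.integral_prod_left).const_mul _
  have hswap : ∫ v in w..(w + h), mH E H v = H⁻¹ * ∫ r in (0:ℝ)..H, ∫ y in Y..Y', E (y + r) / y := by
    simp only [hmH]
    rw [intervalIntegral.integral_const_mul]
    congr 1
    have h1 : ∀ r : ℝ, ∫ y in Y..Y', E (y + r) / y = ∫ v in w..(w + h), E (Real.exp v + r) := fun r =>
      (exp_change' (fun y => E (y + r)) hle).symm
    simp only [h1]
    simp only [intervalIntegral.integral_of_le hle, intervalIntegral.integral_of_le hH.le]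
    exact integral_integral_swap hprod
  have hone : ∀ r ∈ Ioc (0:ℝ) H, |(∫ y in Y..Y', E y / y) - ∫ y in Y..Y', E (y + r) / y| ≤
      3 * H * S / Y := by
    intro r hr
    refine (shift_log hE hY0 hYY hY2 hr.1.le fun y hy => hS y ⟨hy.1, by linarith [hy.2, hr.2]⟩).trans ?_
    refine div_le_div_of_nonneg_right ?_ hY0.le
    have := hr.2
    nlinarith
  have hint : IntervalIntegrable (fun r : ℝ => ∫ y in Y..Y', E (y + r) / y) volume 0 H := by
    have h1 : ∀ r : ℝ, ∫ y in Y..Y', E (y + r) / y = ∫ v in w..(w + h), E (Real.exp v + r) := fun r =>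
      (exp_change' (fun y => E (y + r)) hle).symm
    simp only [h1]
    rw [intervalIntegrable_iff_integrableOn_Ioc_of_le hH.le]
    simp only [intervalIntegral.integral_of_le hle]
    exact hprod.integral_prod_right
  rw [intervalIntegral.integral_sub hi1 hi2, hswap, exp_change' E hle]
  have e5 : (∫ y in Y..Y', E y / y) = H⁻¹ * ∫ _r in (0:ℝ)..H, ∫ y in Y..Y', E y / y := by
    rw [intervalIntegral.integral_const, smul_eq_mul, sub_zero]
    field_simp
  have e6 : (∫ y in Y..Y', E y / y) - H⁻¹ * (∫ r in (0:ℝ)..H, ∫ y in Y..Y', E (y + r) / y) =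
      H⁻¹ * ∫ r in (0:ℝ)..H, ((∫ y in Y..Y', E y / y) - ∫ y in Y..Y', E (y + r) / y) := by
    rw [intervalIntegral.integral_sub intervalIntegrable_const hint, mul_sub, ← e5]
  rw [e6, abs_mul, abs_of_pos (inv_pos.2 hH)]
  have h7 := intervalIntegral.norm_integral_le_of_norm_le_const (a := (0:ℝ)) (b := H)
    (C := 3 * H * S / Y)
    (f := fun r => (∫ y in Y..Y', E y / y) - ∫ y in Y..Y', E (y + r) / y) (fun r hr => by
      rw [uIoc_of_le hH.le] at hr
      rw [Real.norm_eq_abs]
      exact hone r hr)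
  rw [Real.norm_eq_abs, sub_zero, abs_of_pos hH] at h7
  calc H⁻¹ * _ ≤ H⁻¹ * (3 * H * S / Y * H) := mul_le_mul_of_nonneg_left h7 (inv_pos.2 hH).le
    _ = _ := by field_simp

/-- the operator bound -/
theorem op_short {E : ℝ → ℝ} (hm : Measurable E) (hE : ∀ a b, IntervalIntegrable E volume a b)
    {h d u η H S : ℝ} (hh : 0 < h) (hh1 : h ≤ 1 / 4) (hd : 0 ≤ d) (hH : 0 < H) (N : ℕ) (L : List ℂ)
    (hL : ∀ r ∈ L, 0 ≤ r.re) (hlen : ((N : ℝ) + 2) * h + L.length * d ≤ η)
    (hS : ∀ y ∈ Icc (Real.exp u) (Real.exp (u + η) + H), |E y| ≤ S) :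
    ‖Op h d N L (fun v => ((E (Real.exp v) : ℝ) : ℂ)) u‖ ≤
      2 ^ L.length * (h⁻¹ * h⁻¹) * (6 * H * S / Real.exp u +
        2 * (H⁻¹ * ∫ y in (Real.exp u)..(Real.exp (u + η)), |E (y + H) - E y|)) := by
  have hη : 0 ≤ η := le_trans (by positivity) hlen
  have hu0 : 0 < Real.exp u := Real.exp_pos u
  have hS0 : 0 ≤ S := (abs_nonneg _).trans (hS _ ⟨le_rfl, by
    have := Real.exp_le_exp.2 (show u ≤ u + η by linarith)
    linarith⟩)
  -- local integrability
  have hf : LI (fun v => ((E (Real.exp v) : ℝ) : ℂ)) := by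
    intro a b
    have h1 : ∀ a b : ℝ, a ≤ b → IntervalIntegrable (fun v => E (Real.exp v)) volume a b := by
      intro a b hab
      have h2 : IntervalIntegrable (fun y => E y / y) volume (Real.exp a) (Real.exp b) := by
        have := (hE (Real.exp a) (Real.exp b)).mul_continuousOn (g := fun y => y⁻¹) (by
          rw [uIcc_of_le (Real.exp_le_exp.2 hab)]
          exact ContinuousOn.inv₀ (by fun_prop) fun y hy => by
            have := Real.exp_pos a
            linarith [hy.1])
        simpa [div_eq_mul_inv] using this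
      rw [intervalIntegrable_iff_integrableOn_Ioc_of_le (Real.exp_le_exp.2 hab), ← exp_image,
        integrableOn_image_iff_integrableOn_abs_deriv_smul measurableSet_Ioc
          (fun x _ => (Real.hasDerivAt_exp x).hasDerivWithinAt) Real.exp_injective.injOn] at h2
      rw [intervalIntegrable_iff_integrableOn_Ioc_of_le hab]
      refine h2.congr (ae_of_all _ fun v => ?_)
      have := (Real.exp_pos v).ne'
      simp only [smul_eq_mul, abs_of_pos (Real.exp_pos v)]
      field_simp
    rcases le_total a b with hab | hab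
    · exact ⟨(h1 a b hab).1.ofReal, (h1 a b hab).2.ofReal⟩
    · exact ⟨(h1 b a hab).2.ofReal, (h1 b a hab).1.ofReal⟩
  have hgc : Continuous (mH E H) := by
    have h1 : Continuous fun y : ℝ => ∫ t in (0:ℝ)..y, E t :=
      intervalIntegral.continuous_primitive hE 0
    have e : mH E H = fun v => H⁻¹ * ((∫ t in (0:ℝ)..(Real.exp v + H), E t) -
        ∫ t in (0:ℝ)..(Real.exp v), E t) := by
      funext v
      unfold mH
      rw [intervalIntegral.integral_interval_sub_left (hE _ _) (hE _ _)]
    rw [e]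
    exact continuous_const.mul ((h1.comp (by fun_prop)).sub (h1.comp Real.continuous_exp))
  have hg : LI (fun v => ((mH E H v : ℝ) : ℂ)) :=
    LI.of_continuous (Complex.continuous_ofReal.comp hgc)
  have hfg : LI (fun v => ((E (Real.exp v) : ℝ) : ℂ) - ((mH E H v : ℝ) : ℂ)) := fun a b =>
    (hf a b).sub (hg a b)
  have hc : LI (fun _ : ℝ => ((mH E H u : ℝ) : ℂ)) := LI.of_continuous continuous_const
  have hgc' : LI (fun v => ((mH E H v : ℝ) : ℂ) - ((mH E H u : ℝ) : ℂ)) := fun a b =>
    (hg a b).sub (hc a b)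
  have e1 : (fun v => ((E (Real.exp v) : ℝ) : ℂ)) = fun v =>
      (((E (Real.exp v) : ℝ) : ℂ) - ((mH E H v : ℝ) : ℂ)) +
        ((((mH E H v : ℝ) : ℂ) - ((mH E H u : ℝ) : ℂ)) + ((mH E H u : ℝ) : ℂ)) := by
    funext v
    ring
  have e2 : Op h d N L (fun v => ((E (Real.exp v) : ℝ) : ℂ)) u =
      Op h d N L (fun v => ((E (Real.exp v) : ℝ) : ℂ) - ((mH E H v : ℝ) : ℂ)) u +
        Op h d N L (fun v => ((mH E H v : ℝ) : ℂ) - ((mH E H u : ℝ) : ℂ)) u := by
    have h0 : Op h d N L (fun _ : ℝ => ((mH E H u : ℝ) : ℂ)) = fun _ => 0 := by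
      have h1 := Op_PE 0 (fun _ => ((mH E H u : ℝ) : ℂ)) hh d N L (by simp)
      have h2 : PE 0 (fun _ => ((mH E H u : ℝ) : ℂ)) = fun _ : ℝ => ((mH E H u : ℝ) : ℂ) := by
        funext v
        unfold PE
        simp
      rwa [h2] at h1
    conv_lhs => rw [e1]
    rw [Op_add hfg (fun a b => (hgc' a b).add (hc a b)), Op_add hgc' hc, h0]
    simp
  set C1 := 3 * H * S / Real.exp u / h with hC1
  set C2 := H⁻¹ * ∫ y in (Real.exp u)..(Real.exp (u + η)), |E (y + H) - E y| with hC2
  have hC10 : 0 ≤ C1 := by positivity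
  have hEs : ∀ a b, IntervalIntegrable (fun y => E (y + H)) volume a b := fun a b => by
    have := (hE (a + H) (b + H)).comp_add_right H
    simpa using this
  have hC20 : 0 ≤ C2 := by
    refine mul_nonneg (inv_pos.2 hH).le (intervalIntegral.integral_nonneg
      (Real.exp_le_exp.2 (by linarith)) fun y _ => abs_nonneg _)
  -- the first part
  have hb1 : BD (avg h (fun v => ((E (Real.exp v) : ℝ) : ℂ) - ((mH E H v : ℝ) : ℂ))) C1 u (u + η - h) := by
    intro w hw1 hw2
    have h1 := avg_diff (w := w) hm hE hh hh1 hH (S := S) (fun y hy => by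
      refine hS y ⟨(Real.exp_le_exp.2 hw1).trans hy.1, hy.2.trans ?_⟩
      have := Real.exp_le_exp.2 (show w + h ≤ u + η by linarith)
      linarith)
    unfold avg
    have e3 : ∫ v in w..(w + h), (((E (Real.exp v) : ℝ) : ℂ) - ((mH E H v : ℝ) : ℂ)) =
        ((∫ v in w..(w + h), (E (Real.exp v) - mH E H v) : ℝ) : ℂ) := by
      rw [← intervalIntegral.integral_ofReal]
      refine intervalIntegral.integral_congr fun v _ => ?_
      push_cast
      rfl
    rw [e3, norm_mul, norm_inv, Complex.norm_real, Complex.norm_real, Real.norm_eq_abs,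
      Real.norm_eq_abs, abs_of_pos hh, hC1]
    calc h⁻¹ * |∫ v in w..(w + h), (E (Real.exp v) - mH E H v)| ≤ h⁻¹ * (3 * H * S / Real.exp w) :=
          mul_le_mul_of_nonneg_left h1 (inv_pos.2 hh).le
      _ ≤ h⁻¹ * (3 * H * S / Real.exp u) := by
          refine mul_le_mul_of_nonneg_left ?_ (inv_pos.2 hh).le
          exact div_le_div_of_nonneg_left (by positivity) hu0 (Real.exp_le_exp.2 hw1)
      _ = _ := by ring
  have hA := (((hb1.avgs hh N).dif hh).shfs hd L hL) u le_rfl (by linarith)
  -- the second part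
  have hb2 : BD (fun v => ((mH E H v : ℝ) : ℂ) - ((mH E H u : ℝ) : ℂ)) C2 u (u + η) := by
    intro w hw1 hw2
    show ‖((mH E H w : ℝ) : ℂ) - ((mH E H u : ℝ) : ℂ)‖ ≤ C2
    rw [← Complex.ofReal_sub, Complex.norm_real, Real.norm_eq_abs]
    refine (mH_sub hE hH hw1).trans ?_
    rw [hC2]
    refine mul_le_mul_of_nonneg_left ?_ (inv_pos.2 hH).le
    have hii : ∀ a b, IntervalIntegrable (fun y => |E (y + H) - E y|) volume a b := fun a b =>
      ((hEs a b).sub (hE a b)).abs
    have h1 := intervalIntegral.integral_add_adjacent_intervals (hii (Real.exp u) (Real.exp w))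
      (hii (Real.exp w) (Real.exp (u + η)))
    have h2 : 0 ≤ ∫ y in (Real.exp w)..(Real.exp (u + η)), |E (y + H) - E y| :=
      intervalIntegral.integral_nonneg (Real.exp_le_exp.2 hw2) fun y _ => abs_nonneg _
    linarith
  have hB := ((((hb2.avg hh).avgs hh N).dif hh).shfs hd L hL) u le_rfl (by linarith)
  rw [e2]
  refine (norm_add_le _ _).trans ?_
  have h2p : (0:ℝ) < 2 ^ L.length := by positivity
  have hhi : 0 < h⁻¹ := inv_pos.2 hh
  have hh2 : h⁻¹ ≤ h⁻¹ * h⁻¹ := by
    have : 1 ≤ h⁻¹ := by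
      rw [one_le_inv₀ hh]
      linarith
    nlinarith
  have hA' : ‖Op h d N L (fun v => ((E (Real.exp v) : ℝ) : ℂ) - ((mH E H v : ℝ) : ℂ)) u‖ ≤
      2 ^ L.length * (h⁻¹ * h⁻¹) * (6 * H * S / Real.exp u) := by
    refine (show _ ≤ _ from hA).trans (le_of_eq ?_)
    rw [hC1]
    field_simp
    ring
  have hB' : ‖Op h d N L (fun v => ((mH E H v : ℝ) : ℂ) - ((mH E H u : ℝ) : ℂ)) u‖ ≤
      2 ^ L.length * (h⁻¹ * h⁻¹) * (2 * C2) := by
    refine (show _ ≤ _ from hB).trans ?_
    calc 2 ^ L.length * (2 * C2 / h) = 2 ^ L.length * (h⁻¹ * (2 * C2)) := by ring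
      _ ≤ 2 ^ L.length * ((h⁻¹ * h⁻¹) * (2 * C2)) := by gcongr
      _ = _ := by ring
  rw [mul_add]
  exact add_le_add hA' hB'

end

end Pool.Agent.R303.SW
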