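import Pool.Agent.R303.SW.Inst

/-! # Centred windows -/

set_option autoImplicit false
set_option maxHeartbeats 4000000

open Complex Filter Topology Set Metric MeasureTheory
open Pool.Agent.W190

namespace Pool.Agent.R303.SW

noncomputable section

/-- change of the window -/
lemma recentre {f : ℝ → ℝ → ℝ} (hf0 : ∀ y H, 0 ≤ f y H)
    (hfi : ∀ H a b, IntervalIntegrable (fun y => f y H) volume a b) {θ θ' κ c ε : ℝ}
    (hθ : θ < θ') (hθ0 : 0 ≤ θ') (hκ : 0 ≤ κ) (hc : 0 < c) (hε : 0 < ε) (hε1 : ε < 1)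
    (h : ∀ᶠ X : ℝ in atTop, ∀ H : ℝ, 0 < H → H ≤ X ^ (1 - ε / 2) →
      H * X ^ θ' ≤ ∫ y in X..(X + c / 2 ^ κ * X / Real.log X ^ κ), f y H) :
    ∀ᶠ X : ℝ in atTop, ∀ H : ℝ, 0 < H → H ≤ X ^ (1 - ε) →
      H * X ^ θ ≤ ∫ x in X..(X + c * X / Real.log X ^ κ), f (x - H / 2) H := by
  obtain ⟨X₀, hX₀⟩ := eventually_atTop.1 h
  have t1 : ∀ᶠ X : ℝ in atTop, (2:ℝ) ^ (1 - ε / 2) ≤ X ^ (ε / 2) :=
    (tendsto_rpow_atTop (by linarith)).eventually_ge_atTop _
  have t2 : ∀ᶠ X : ℝ in atTop, (2:ℝ) ^ θ' ≤ X ^ (θ' - θ) :=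
    (tendsto_rpow_atTop (by linarith)).eventually_ge_atTop _
  filter_upwards [t1, t2, eventually_ge_atTop (2 * X₀), eventually_ge_atTop 8] with X a1 a2 a3 a4 H hH0 hH1
  have hX : 0 < X := by linarith
  have hX1 : 1 ≤ X := by linarith
  have hHX : H ≤ X := by
    refine hH1.trans ?_
    conv_rhs => rw [← Real.rpow_one X]
    exact Real.rpow_le_rpow_of_exponent_le hX1 (by linarith)
  set X' := X - H / 2 with hX'
  have hX'2 : X / 2 ≤ X' := by rw [hX']; linarith
  have hX'0 : 0 < X' := by linarith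
  have hX'X : X' ≤ X := by rw [hX']; linarith
  have hlogX : 1 < Real.log X := by
    rw [Real.lt_log_iff_exp_lt hX]
    have := Real.exp_one_lt_d9
    linarith
  have hlog' : Real.log X / 2 ≤ Real.log X' := by
    have h1 : Real.sqrt X ≤ X' := by
      refine le_trans ?_ hX'2
      rw [Real.sqrt_le_left (by linarith)]
      nlinarith
    have h2 := Real.log_le_log (Real.sqrt_pos.2 hX) h1
    rwa [Real.log_sqrt hX.le] at h2
  have hlogX'0 : 0 < Real.log X' := by linarith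
  have b1 : H ≤ X' ^ (1 - ε / 2) := by
    calc H ≤ X ^ (1 - ε) := hH1
      _ ≤ (X / 2) ^ (1 - ε / 2) := by
          rw [Real.div_rpow hX.le (by norm_num), le_div_iff₀ (by positivity)]
          calc X ^ (1 - ε) * 2 ^ (1 - ε / 2) ≤ X ^ (1 - ε) * X ^ (ε / 2) := by gcongr
            _ = X ^ (1 - ε / 2) := by rw [← Real.rpow_add hX]; congr 1; ring
      _ ≤ _ := Real.rpow_le_rpow (by positivity) hX'2 (by linarith)
  have b2 := hX₀ X' (by linarith) H hH0 b1
  have b3 : X ^ θ ≤ X' ^ θ' := by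
    calc X ^ θ ≤ (X / 2) ^ θ' := by
          rw [Real.div_rpow hX.le (by norm_num), le_div_iff₀ (by positivity)]
          calc X ^ θ * 2 ^ θ' ≤ X ^ θ * X ^ (θ' - θ) := by gcongr
            _ = X ^ θ' := by rw [← Real.rpow_add hX]; congr 1; ring
      _ ≤ _ := Real.rpow_le_rpow (by positivity) hX'2 hθ0
  have b4 : X' + c / 2 ^ κ * X' / Real.log X' ^ κ ≤ X + c * X / Real.log X ^ κ - H / 2 := by
    have e1 : c / 2 ^ κ * X' / Real.log X' ^ κ ≤ c * X / Real.log X ^ κ := by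
      have h2 : (Real.log X / 2) ^ κ ≤ Real.log X' ^ κ :=
        Real.rpow_le_rpow (by linarith) hlog' hκ
      have h3 : 0 < (Real.log X / 2) ^ κ := Real.rpow_pos_of_pos (by linarith) _
      calc c / 2 ^ κ * X' / Real.log X' ^ κ ≤ c / 2 ^ κ * X / (Real.log X / 2) ^ κ := by gcongr
        _ = c * X / Real.log X ^ κ := by
            rw [Real.div_rpow (by linarith) (by norm_num)]
            have : 0 < Real.log X ^ κ := Real.rpow_pos_of_pos (by linarith) _
            field_simp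
    linarith
  have b5 : (0:ℝ) ≤ c / 2 ^ κ * X' / Real.log X' ^ κ := by positivity
  calc H * X ^ θ ≤ H * X' ^ θ' := mul_le_mul_of_nonneg_left b3 hH0.le
    _ ≤ ∫ y in X'..(X' + c / 2 ^ κ * X' / Real.log X' ^ κ), f y H := b2
    _ ≤ ∫ y in X'..(X + c * X / Real.log X ^ κ - H / 2), f y H := by
        have h1 := intervalIntegral.integral_add_adjacent_intervals
          (hfi H X' (X' + c / 2 ^ κ * X' / Real.log X' ^ κ))
          (hfi H (X' + c / 2 ^ κ * X' / Real.log X' ^ κ) (X + c * X / Real.log X ^ κ - H / 2))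
        have h2 : 0 ≤ ∫ y in (X' + c / 2 ^ κ * X' / Real.log X' ^ κ)..(X + c * X / Real.log X ^ κ - H / 2),
            f y H := intervalIntegral.integral_nonneg b4 fun y _ => hf0 y H
        linarith
    _ = _ := by
        rw [intervalIntegral.integral_comp_sub_right (fun y => f y H) (H / 2)]

/-- a simple Cauchy-Schwarz inequality -/
lemma cs_int {g : ℝ → ℝ} {X Y : ℝ} (hXY : X < Y) (h1 : IntervalIntegrable (fun x => |g x|) volume X Y)
    (h2 : IntervalIntegrable (fun x => g x ^ 2) volume X Y) :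
    ((1 / (Y - X)) * ∫ x in X..Y, |g x|) ^ 2 ≤ (1 / (Y - X)) * ∫ x in X..Y, g x ^ 2 := by
  have hp : 0 < Y - X := by linarith
  set m := (1 / (Y - X)) * ∫ x in X..Y, |g x| with hm
  have h3 : ∫ x in X..Y, (2 * m * |g x|) ≤ ∫ x in X..Y, (g x ^ 2 + m ^ 2) := by
    refine intervalIntegral.integral_mono_on hXY.le (h1.const_mul _) (h2.add intervalIntegrable_const)
      fun x _ => ?_
    have := sq_nonneg (|g x| - m)
    have h4 := sq_abs (g x)
    nlinarith
  rw [intervalIntegral.integral_const_mul, intervalIntegral.integral_add h2 intervalIntegrable_const,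
    intervalIntegral.integral_const, smul_eq_mul] at h3
  have h5 : ∫ x in X..Y, |g x| = m * (Y - X) := by
    rw [hm]
    field_simp
  rw [h5] at h3
  rw [div_mul_eq_mul_div, one_mul, le_div_iff₀ hp]
  nlinarith

lemma SF_bd (a : ℕ → ℝ) {z R : ℝ} (h : z ≤ R) : |SF a z| ≤ ∑ n ∈ Finset.Icc 1 ⌊R⌋₊, |a n| := by
  unfold SF
  refine (Finset.abs_sum_le_sum_abs _ _).trans ?_
  exact Finset.sum_le_sum_of_subset_of_nonneg (Finset.Icc_subset_Icc_right (Nat.floor_mono h))
    fun _ _ _ => abs_nonneg _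

/-- the centred difference -/
def DF (a : ℕ → ℝ) (H x : ℝ) : ℝ := SF a (x + H / 2) - SF a (x - H / 2)

lemma DF_meas (a : ℕ → ℝ) (H : ℝ) : Measurable (DF a H) := by
  unfold DF
  exact ((SF_meas a).comp (measurable_id.add_const _)).sub ((SF_meas a).comp (measurable_id.sub_const _))

lemma DF_bd (a : ℕ → ℝ) (H : ℝ) (x y : ℝ) : ∃ K : ℝ, ∀ z ∈ uIoc x y, |DF a H z| ≤ K := by
  refine ⟨(∑ n ∈ Finset.Icc 1 ⌊max x y + |H|⌋₊, |a n|) + ∑ n ∈ Finset.Icc 1 ⌊max x y + |H|⌋₊, |a n|,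
    fun z hz => ?_⟩
  have h2 : z ≤ max x y := (mem_Ioc.1 hz).2
  have h3 := abs_nonneg H
  have h4 := le_abs_self H
  have h5 := neg_abs_le H
  unfold DF
  refine (abs_sub _ _).trans (add_le_add (SF_bd a ?_) (SF_bd a ?_))
  · linarith
  · linarith

lemma DF_II (a : ℕ → ℝ) (H k x y : ℝ) : IntervalIntegrable (fun z => DF a H z - k) volume x y := by
  obtain ⟨K, hK⟩ := DF_bd a H x y
  rw [intervalIntegrable_iff]
  refine Measure.integrableOn_of_bounded (M := K + |k|) (by simp)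
    ((DF_meas a H).sub_const k).aestronglyMeasurable ?_
  filter_upwards [ae_restrict_mem measurableSet_uIoc] with z hz
  rw [Real.norm_eq_abs]
  exact (abs_sub _ _).trans (add_le_add_left (hK z hz) _)

lemma DF_II2 (a : ℕ → ℝ) (H k x y : ℝ) : IntervalIntegrable (fun z => (DF a H z - k) ^ 2) volume x y := by
  obtain ⟨K, hK⟩ := DF_bd a H x y
  rw [intervalIntegrable_iff]
  refine Measure.integrableOn_of_bounded (M := (K + |k|) ^ 2) (by simp)
    (((DF_meas a H).sub_const k).pow_const 2).aestronglyMeasurable ?_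
  filter_upwards [ae_restrict_mem measurableSet_uIoc] with z hz
  rw [Real.norm_eq_abs, abs_pow]
  exact pow_le_pow_left₀ (abs_nonneg _) ((abs_sub _ _).trans (add_le_add_left (hK z hz) _)) 2

/-- the sum over an open centred window is, outside a countable set, a centred difference -/
lemma open_window (a : ℕ → ℝ) (ha0 : a 0 = 0) {x H : ℝ} (hH : 0 < H) (hx : H / 2 ≤ x)
    (hn : ∀ n : ℕ, x + H / 2 ≠ n) :
    ∑ n ∈ (Finset.range (⌈x + H⌉₊ + 1)).filter (fun n : ℕ => |(n : ℝ) - x| < H / 2), a n =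
      DF a H x := by
  unfold DF SF
  have e1 : Finset.Icc 1 ⌊x + H / 2⌋₊ = Finset.Icc 1 ⌊x - H / 2⌋₊ ∪
      Finset.Ioc ⌊x - H / 2⌋₊ ⌊x + H / 2⌋₊ := by
    ext n
    simp only [Finset.mem_union, Finset.mem_Icc, Finset.mem_Ioc]
    have : ⌊x - H / 2⌋₊ ≤ ⌊x + H / 2⌋₊ := Nat.floor_mono (by linarith)
    omega
  rw [e1, Finset.sum_union (Finset.disjoint_left.2 fun n h1 h2 => by
    rw [Finset.mem_Icc] at h1
    rw [Finset.mem_Ioc] at h2
    omega), add_sub_cancel_left]
  have e2 : (Finset.range (⌈x + H⌉₊ + 1)).filter (fun n : ℕ => |(n : ℝ) - x| < H / 2) =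
      Finset.Ioc ⌊x - H / 2⌋₊ ⌊x + H / 2⌋₊ := by
    ext n
    rw [Finset.mem_filter, Finset.mem_range, Finset.mem_Ioc, Nat.floor_lt (by linarith),
      Nat.le_floor_iff (by linarith), abs_lt]
    constructor
    · rintro ⟨_, h1, h2⟩
      exact ⟨by linarith, by linarith⟩
    · rintro ⟨h1, h2⟩
      have h3 : (n : ℝ) < x + H / 2 := lt_of_le_of_ne h2 (hn n).symm
      refine ⟨?_, by linarith, by linarith⟩
      have : (n : ℝ) ≤ ⌈x + H⌉₊ := by
        have := Nat.le_ceil (x + H)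
        linarith
      exact Nat.lt_succ_of_le (by exact_mod_cast this)
  rw [e2]

lemma ae_not_nat (H : ℝ) : ∀ᵐ x : ℝ, ∀ n : ℕ, x + H / 2 ≠ n := by
  rw [ae_all_iff]
  intro n
  have : {x : ℝ | ¬ (x + H / 2 ≠ n)} ⊆ {(n : ℝ) - H / 2} := by
    intro x hx
    simp only [ne_eq, not_not, mem_ofPred_eq] at hx
    rw [mem_singleton_iff]
    linarith
  exact measure_mono_null this (by simp)

end

end Pool.Agent.R303.SW
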