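import Pool.Agent.R303.SW.Main
import Pool.Agent.R303.SW.Br
import Pool.Agent.W190.A17

/-! # Differences over short intervals: the general conclusion -/

set_option autoImplicit false
set_option maxHeartbeats 4000000

open Complex Filter Topology Set Metric MeasureTheory
open Pool.Agent.W190

namespace Pool.Agent.R303.SW

noncomputable section

lemma SF_meas (a : ℕ → ℝ) : Measurable (SF a) := by
  unfold SF
  exact (measurable_from_nat (f := fun m : ℕ => ∑ n ∈ Finset.Icc 1 m, a n)).comp Nat.measurable_floor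

lemma SF_II (a : ℕ → ℝ) (x y : ℝ) : IntervalIntegrable (SF a) volume x y := by
  have h : ∀ z ∈ uIoc x y, ‖SF a z‖ ≤ ∑ n ∈ Finset.Icc 1 ⌊max |x| |y|⌋₊, |a n| := by
    intro z hz
    rw [Real.norm_eq_abs]
    unfold SF
    refine (Finset.abs_sum_le_sum_abs _ _).trans ?_
    refine Finset.sum_le_sum_of_subset_of_nonneg ?_ fun _ _ _ => abs_nonneg _
    refine Finset.Icc_subset_Icc_right (Nat.floor_mono ?_)
    have h2 : z ≤ max x y := (mem_Ioc.1 hz).2
    exact h2.trans (max_le_max (le_abs_self x) (le_abs_self y))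
  rw [intervalIntegrable_iff]
  refine Measure.integrableOn_of_bounded (M := ∑ n ∈ Finset.Icc 1 ⌊max |x| |y|⌋₊, |a n|) (by simp)
    (SF_meas a).aestronglyMeasurable ?_
  filter_upwards [ae_restrict_mem measurableSet_uIoc] with z hz using h z hz

/-- the operator kills a linear function -/
lemma Op_lin (a : ℕ → ℝ) (k0 : ℝ) {h : ℝ} (hh : 0 < h) (d : ℝ) (N : ℕ) (L : List ℂ)
    (hL : ((1 : ℕ) : ℂ) ∈ L) (u : ℝ) :
    Op h d N L (TT (fun n => (a n : ℂ))) u =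
      Op h d N L (fun v => ((SF a (Real.exp v) - k0 * Real.exp v : ℝ) : ℂ)) u := by
  have hT := TT_LI (fun n => (a n : ℂ))
  set cf : ℕ → ℂ := fun k => if k = 1 then (k0 : ℂ) else 0 with hcf
  have hP : LI (PE 1 cf) := LI.of_continuous (PE_cont 1 cf)
  have hg : LI (fun v => TT (fun n => (a n : ℂ)) v - PE 1 cf v) := fun x y => (hT x y).sub (hP x y)
  have e : TT (fun n => (a n : ℂ)) = fun v => (TT (fun n => (a n : ℂ)) v - PE 1 cf v) + PE 1 cf v := by
    funext v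
    ring
  have hPe : ∀ v, PE 1 cf v = ((k0 * Real.exp v : ℝ) : ℂ) := by
    intro v
    unfold PE
    rw [Finset.sum_range_succ, Finset.sum_range_one, hcf]
    simp
  have e2 : (fun v => TT (fun n => (a n : ℂ)) v - PE 1 cf v) =
      fun v => ((SF a (Real.exp v) - k0 * Real.exp v : ℝ) : ℂ) := by
    funext v
    rw [hPe, TT_real, ← Complex.ofReal_sub]
  conv_lhs => rw [e]
  rw [Op_add hg hP, Op_PE 1 cf hh d N L (by
    intro k hk
    have : k = 1 := by
      rw [Finset.mem_Icc] at hk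
      omega
    rw [this]
    exact hL), e2]
  simp

/-- lower bounds for differences over short intervals from lower bounds for the operator -/
theorem short_low {a : ℕ → ℝ} {k0 κ c β σ0 e0 θ : ℝ} (hκ : 0 ≤ κ) (hc : 0 < c) (he0 : 0 < e0)
    (hσ0 : 0 ≤ σ0) (hσβ : σ0 - e0 / 2 < β) (hθβ : θ < β)
    (hop : ∀ ε : ℝ, 0 < ε → ∃ G : ℝ → ℝ, SP G ∧ ∀ᶠ u in atTop, ∃ (h d : ℝ) (N : ℕ) (L : List ℂ),
      0 < h ∧ h ≤ 1 / 4 ∧ 0 ≤ d ∧ (∀ r ∈ L, 0 ≤ r.re) ∧ (∀ k ∈ Finset.Icc 1 (0 + 1), ((k : ℕ) : ℂ) ∈ L) ∧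
      ((N : ℝ) + 2) * h + (L.length : ℝ) * d ≤ et c κ u ∧ 2 ^ L.length * (h⁻¹ * h⁻¹) ≤ G u ∧
      Real.exp ((β - ε) * u) ≤ ‖Op h d N L (TT (fun n => (a n : ℂ))) u‖)
    (hbd : ∀ κ' : ℝ, σ0 < κ' → ∃ C : ℝ, ∀ y : ℝ, 1 ≤ y → |SF a y - k0 * y| ≤ C * y ^ κ') :
    ∀ᶠ X : ℝ in atTop, ∀ H : ℝ, 0 < H → H ≤ X ^ (1 - e0) →
      H * X ^ θ ≤ ∫ y in X..(X + c * X / Real.log X ^ κ), |(SF a (y + H) - SF a y) - k0 * H| := by
  obtain ⟨C, hC⟩ := hbd (σ0 + e0 / 8) (by linarith)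
  have hC0 : 0 ≤ C := by
    have := (abs_nonneg _).trans (hC 1 le_rfl)
    simpa using this
  obtain ⟨ε1, hε1, hε1a, hε1b⟩ : ∃ ε1 : ℝ, 0 < ε1 ∧ ε1 ≤ (β - θ) / 2 ∧ σ0 - e0 / 2 - e0 / 8 < β - ε1 := by
    refine ⟨min ((β - θ) / 2) (e0 / 8), lt_min (by linarith) (by linarith), min_le_left _ _, ?_⟩
    have := min_le_right ((β - θ) / 2) (e0 / 8)
    linarith
  obtain ⟨G, hG, hev⟩ := hop ε1 hε1
  set κ' := σ0 + e0 / 8 with hκ'
  set Q : ℝ := 6 * C * (2 + c) ^ κ' with hQ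
  have hQ0 : 0 ≤ Q := by positivity
  have hgr := growth (K := 1) (β := β - ε1) (θ := κ' - e0) (ε := (β - θ) / 2) one_pos
    (by rw [hκ']; linarith) (by linarith) (Q1 := fun u => 2 * G u) (Q2 := fun u => Q * G u)
    ((SP.const (by norm_num)).mul hG) ((SP.const hQ0).mul hG)
  filter_upwards [Real.tendsto_log_atTop.eventually hev, Real.tendsto_log_atTop.eventually hgr,
    Real.tendsto_log_atTop.eventually hG.1, eventually_ge_atTop (Real.exp 1)] with X h1 h2 h3 h4 H hH0 hH1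
  have hX : 0 < X := (Real.exp_pos 1).trans_le h4
  have hX1 : 1 ≤ X := by
    have := Real.add_one_le_exp (1:ℝ)
    linarith
  have hu : 1 ≤ Real.log X := (Real.le_log_iff_exp_le hX).2 h4
  set u := Real.log X with hudef
  have hXu : Real.exp u = X := Real.exp_log hX
  have het := et_pos hc hκ hu
  have hend : X + c * X / u ^ κ = Real.exp (u + et c κ u) := by
    rw [Real.exp_add, hXu]
    unfold et
    rw [Real.exp_log (by positivity), Real.rpow_neg (by linarith)]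
    ring
  have hend2 : X + c * X / u ^ κ ≤ (1 + c) * X := by
    have : 1 ≤ u ^ κ := Real.one_le_rpow hu hκ
    have : c * X / u ^ κ ≤ c * X := div_le_self (by positivity) this
    linarith
  obtain ⟨h, d, N, L, hh, hh1, hd, hL, hLk, hlen, hGu, hlow⟩ := h1
  have hHX : H ≤ X := by
    refine hH1.trans ?_
    conv_rhs => rw [← Real.rpow_one X]
    exact Real.rpow_le_rpow_of_exponent_le hX1 (by linarith)
  have hm : Measurable fun y : ℝ => SF a y - k0 * y := (SF_meas a).sub (measurable_id.const_mul k0)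
  have hI : ∀ x y, IntervalIntegrable (fun y : ℝ => SF a y - k0 * y) volume x y := fun x y =>
    (SF_II a x y).sub ((continuous_const.mul continuous_id).intervalIntegrable _ _)
  have hκ0 : 0 ≤ κ' := by rw [hκ']; linarith
  have hS : ∀ y ∈ Icc (Real.exp u) (Real.exp (u + et c κ u) + H),
      |SF a y - k0 * y| ≤ C * ((2 + c) * X) ^ κ' := by
    intro y hy
    rw [← hend, hXu] at hy
    refine (hC y (hX1.trans hy.1)).trans ?_
    refine mul_le_mul_of_nonneg_left ?_ hC0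
    refine Real.rpow_le_rpow (by linarith [hy.1]) ?_ hκ0
    have := hy.2
    linarith
  have key := op_short hm hI hh hh1 hd hH0 N L hL hlen hS
  rw [← Op_lin a k0 hh d N L (hLk 1 (by simp)) u] at key
  rw [← hend, hXu] at key
  have hsimp : ∀ y : ℝ, SF a (y + H) - k0 * (y + H) - (SF a y - k0 * y) =
      SF a (y + H) - SF a y - k0 * H := fun y => by ring
  simp only [hsimp] at key
  set J := ∫ y in X..(X + c * X / u ^ κ), |SF a (y + H) - SF a y - k0 * H| with hJ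
  have hJ0 : 0 ≤ J := intervalIntegral.integral_nonneg (by
    have : 0 ≤ c * X / u ^ κ := by positivity
    linarith) fun y _ => abs_nonneg _
  have hE0 : 0 ≤ H⁻¹ * J := by positivity
  have h5 : 6 * H * (C * ((2 + c) * X) ^ κ') / X ≤ Q * Real.exp ((κ' - e0) * u) := by
    have e1 : ((2 + c) * X) ^ κ' = (2 + c) ^ κ' * X ^ κ' := Real.mul_rpow (by linarith) hX.le
    have e2 : Real.exp ((κ' - e0) * u) = X ^ κ' * X ^ (1 - e0) / X := by
      rw [← Real.rpow_add hX, Real.rpow_def_of_pos hX, ← hudef]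
      conv_rhs => rw [← hXu]
      rw [← Real.exp_sub]
      congr 1
      ring
    rw [e1, e2, hQ]
    rw [← mul_div_assoc]
    refine div_le_div_of_nonneg_right ?_ hX.le
    have : 0 ≤ 6 * C * (2 + c) ^ κ' * X ^ κ' := by positivity
    calc 6 * H * (C * ((2 + c) ^ κ' * X ^ κ')) = 6 * C * (2 + c) ^ κ' * X ^ κ' * H := by ring
      _ ≤ 6 * C * (2 + c) ^ κ' * X ^ κ' * X ^ (1 - e0) := mul_le_mul_of_nonneg_left hH1 this
      _ = _ := by ring
  have hT0 : 0 ≤ 6 * H * (C * ((2 + c) * X) ^ κ') / X + 2 * (H⁻¹ * J) := by positivity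
  have h6 := h2 (H⁻¹ * J) hE0 (by
    rw [one_mul]
    refine (hlow.trans key).trans ?_
    calc 2 ^ L.length * (h⁻¹ * h⁻¹) * (6 * H * (C * ((2 + c) * X) ^ κ') / X + 2 * (H⁻¹ * J))
        ≤ G u * (6 * H * (C * ((2 + c) * X) ^ κ') / X + 2 * (H⁻¹ * J)) :=
          mul_le_mul_of_nonneg_right hGu hT0
      _ ≤ G u * (Q * Real.exp ((κ' - e0) * u) + 2 * (H⁻¹ * J)) := by
          refine mul_le_mul_of_nonneg_left ?_ h3
          linarith
      _ = _ := by ring)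
  have h7 : X ^ θ ≤ H⁻¹ * J := by
    refine le_trans ?_ h6
    rw [Real.rpow_def_of_pos hX, ← hudef]
    refine Real.exp_le_exp.2 ?_
    rw [mul_comm]
    refine mul_le_mul_of_nonneg_right ?_ (by linarith)
    linarith
  calc H * X ^ θ ≤ H * (H⁻¹ * J) := mul_le_mul_of_nonneg_left h7 hH0.le
    _ = J := by field_simp

/-- choice of a zero near the supremum of the real parts -/
theorem extract {θ : ℝ} (hz : ∃ s : ℂ, riemannZeta s = 0 ∧ θ < s.re) {e : ℝ} (he : 0 < e) :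
    ∃ (σ0 : ℝ) (ρ : ℂ), riemannZeta ρ = 0 ∧ θ < ρ.re ∧ σ0 - e < ρ.re ∧ θ < σ0 ∧ σ0 ≤ 1 ∧
      ∀ s : ℂ, σ0 < s.re → riemannZeta s ≠ 0 := by
  set A : Set ℝ := Complex.re '' {s : ℂ | riemannZeta s = 0 ∧ θ < s.re} with hA
  obtain ⟨s0, h0, h1⟩ := hz
  have hne : A.Nonempty := ⟨s0.re, s0, ⟨h0, h1⟩, rfl⟩
  have hbd : BddAbove A := ⟨1, by
    rintro x ⟨s, ⟨hs, _⟩, rfl⟩
    exact (zero_FF hs).2.le⟩
  obtain ⟨x, ⟨ρ, ⟨hρ, hρθ⟩, rfl⟩, hx⟩ := exists_lt_of_lt_csSup hne (show sSup A - e < sSup A by linarith)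
  have hle : ρ.re ≤ sSup A := le_csSup hbd ⟨ρ, ⟨hρ, hρθ⟩, rfl⟩
  refine ⟨sSup A, ρ, hρ, hρθ, hx, hρθ.trans_le hle, csSup_le hne ?_, fun s hs h => ?_⟩
  · rintro x ⟨s, ⟨hs, _⟩, rfl⟩
    exact (zero_FF hs).2.le
  · have h2 : θ < s.re := (hρθ.trans_le hle).trans hs
    exact absurd (le_csSup hbd ⟨s, ⟨h, h2⟩, rfl⟩) (not_le.2 hs)

end

end Pool.Agent.R303.SW
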