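import Pool.Agent.R303.SW.Fin
import Pool.Agent.H353R3.S8

/-! # The two sequences -/

set_option autoImplicit false
set_option maxHeartbeats 4000000

open Complex Filter Topology Set Metric MeasureTheory
open H353 (FF mu mu_cast mu_pos FF_anal FF_order_ne_top zeros_finite FF_bound)
open Pool.Agent.W190

namespace Pool.Agent.R303.SW

noncomputable section

theorem moebius_op {σ θ κ c α δ : ℝ} (hσ : 1 / 2 ≤ σ) (hθ : σ < θ) (hκ : 0 ≤ κ) (hc : 0 < c) (hα : 0 ≤ α)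
    (hακ : (κ + 1) * α < 1) (hdens : Dens σ α) (ρ₀ : ℂ) (hρ0 : FF ρ₀ = 0) (hρθ : θ < ρ₀.re) (D : ℝ → ℕ)
    (hδ1 : δ < 1) (hDu : ∀ᶠ u in atTop, (D u : ℝ) ≤ u ^ δ)
    (ε : ℝ) (hε : 0 < ε) :
    ∃ G : ℝ → ℝ, SP G ∧ ∀ᶠ u in atTop, ∃ (h d : ℝ) (N : ℕ) (L : List ℂ), 0 < h ∧ h ≤ 1 / 4 ∧ 0 ≤ d ∧
      (∀ r ∈ L, 0 ≤ r.re) ∧ (∀ k ∈ Finset.Icc 1 (D u + 1), (k : ℂ) ∈ L) ∧
      ((N : ℝ) + 2) * h + (L.length : ℝ) * d ≤ et c κ u ∧ 2 ^ L.length * (h⁻¹ * h⁻¹) ≤ G u ∧
      Real.exp ((ρ₀.re - ε) * u) ≤ ‖Op h d N L (TT (fun n => ((ArithmeticFunction.moebius n : ℤ) : ℂ))) u‖ := by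
  classical
  obtain ⟨F1, hF1, hF10, hF⟩ := exists_F1 ρ₀
  have hρ1 : ρ₀.re < 1 := ZU.J_g2b.FF_zero_re hρ0
  have hmu := mu_pos ρ₀ hρ0
  have hρne : ρ₀ - 1 ≠ 0 := by
    intro h
    have := congrArg Complex.re h
    simp at this
    linarith
  refine main_op (a := fun n => ((ArithmeticFunction.moebius n : ℤ) : ℂ)) (by simp) moebius_sum hσ hθ hκ hc
    hα hακ hdens ρ₀ hρ0 hρθ (fun ρ => if ρ = ρ₀ then mu ρ₀ - 1 else mu ρ) D hδ1 hDu (fun s => (s - 1) ^ 2)
    (fun z _ => by fun_prop) 0 ?_ ?_ ?_ F1 (fun s => (s - 1) ^ 2) hF1 (by fun_prop) hF10 (pow_ne_zero 2 hρne) hF ?_ ?_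
    1 zero_le_one 2 ?_ ε hε
  · simp only [if_true]
    omega
  · intro ρ hρ
    simp only [if_neg hρ]
  · simp
  · filter_upwards with z
    simp
  · intro s hs
    have h1 : 1 < s.re := by rw [hs]; norm_num
    have hs1 : s ≠ 1 := by
      rintro rfl
      norm_num at hs
    have h2 := ArithmeticFunction.LSeries_zeta_mul_Lseries_moebius h1
    rw [ArithmeticFunction.LSeries_zeta_eq_riemannZeta h1] at h2
    rw [FF_eq_ne hs1]
    linear_combination (s - 1) ^ 2 * h2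
  · intro z z1 z2
    rw [norm_pow, one_mul]
    refine pow_le_pow_left₀ (norm_nonneg _) ?_ 2
    have := Complex.norm_le_abs_re_add_abs_im (z - 1)
    rw [Complex.sub_re, Complex.sub_im, Complex.one_re, Complex.one_im, sub_zero] at this
    have h3 : |z.re - 1| ≤ 1 := abs_le.2 ⟨by linarith, by linarith⟩
    linarith

theorem mangoldt_op {σ θ κ c α δ : ℝ} (hσ : 1 / 2 ≤ σ) (hθ : σ < θ) (hκ : 0 ≤ κ) (hc : 0 < c) (hα : 0 ≤ α)
    (hακ : (κ + 1) * α < 1) (hdens : Dens σ α) (ρ₀ : ℂ) (hρ0 : FF ρ₀ = 0) (hρθ : θ < ρ₀.re) (D : ℝ → ℕ)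
    (hδ1 : δ < 1) (hDu : ∀ᶠ u in atTop, (D u : ℝ) ≤ u ^ δ)
    (ε : ℝ) (hε : 0 < ε) :
    ∃ G : ℝ → ℝ, SP G ∧ ∀ᶠ u in atTop, ∃ (h d : ℝ) (N : ℕ) (L : List ℂ), 0 < h ∧ h ≤ 1 / 4 ∧ 0 ≤ d ∧
      (∀ r ∈ L, 0 ≤ r.re) ∧ (∀ k ∈ Finset.Icc 1 (D u + 1), (k : ℂ) ∈ L) ∧
      ((N : ℝ) + 2) * h + (L.length : ℝ) * d ≤ et c κ u ∧ 2 ^ L.length * (h⁻¹ * h⁻¹) ≤ G u ∧
      Real.exp ((ρ₀.re - ε) * u) ≤ ‖Op h d N L (TT (fun n => ((ArithmeticFunction.vonMangoldt n : ℝ) : ℂ))) u‖ := by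
  classical
  obtain ⟨F1, hF1, hF10, hF⟩ := exists_F1 ρ₀
  have hρ1 : ρ₀.re < 1 := ZU.J_g2b.FF_zero_re hρ0
  have hmu := mu_pos ρ₀ hρ0
  have hρne : ρ₀ - 1 ≠ 0 := by
    intro h
    have := congrArg Complex.re h
    simp at this
    linarith
  set m := mu ρ₀ with hm
  set B1 : ℂ → ℂ := fun z => (z - ρ₀) * F1 z - (z - 1) * (m * F1 z + (z - ρ₀) * deriv F1 z) with hB1
  have hB1a : AnalyticAt ℂ B1 ρ₀ := by
    have h1 := hF1.deriv
    rw [hB1]
    fun_prop
  have hB10 : B1 ρ₀ ≠ 0 := by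
    rw [hB1]
    simp only [sub_self, zero_mul, add_zero, zero_sub, ne_eq, neg_eq_zero, mul_eq_zero, not_or]
    refine ⟨hρne, ?_, hF10⟩
    exact_mod_cast (by omega : m ≠ 0)
  have hFd : Differentiable ℂ FF := ZU.J_g2b.FF_diff
  have hBB : ∀ᶠ z in 𝓝 ρ₀, FF z - (z - 1) * deriv FF z = (z - ρ₀) ^ (m - 1) • B1 z := by
    have h1 : deriv FF =ᶠ[𝓝 ρ₀] deriv (fun z => (z - ρ₀) ^ m • F1 z) :=
      EventuallyEq.deriv hF
    filter_upwards [h1, hF, hF1.eventually_analyticAt] with z z1 z2 z3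
    have h2 : HasDerivAt (fun z => (z - ρ₀) ^ m • F1 z)
        ((m : ℂ) * (z - ρ₀) ^ (m - 1) * 1 * F1 z + (z - ρ₀) ^ m * deriv F1 z) z :=
      (((hasDerivAt_id z).sub_const ρ₀).pow m).mul z3.differentiableAt.hasDerivAt
    rw [z1, h2.deriv, z2]
    have h3 : (z - ρ₀) ^ m = (z - ρ₀) ^ (m - 1) * (z - ρ₀) := by
      rw [← pow_succ]
      congr 1
      omega
    rw [h3, hB1]
    simp only [smul_eq_mul]
    ring
  refine main_op (a := fun n => ((ArithmeticFunction.vonMangoldt n : ℝ) : ℂ)) (by simp) mangoldt_sum hσ hθ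
    hκ hc hα hακ hdens ρ₀ hρ0 hρθ (fun ρ => if ρ = ρ₀ then 0 else mu ρ) D hδ1 hDu
    (fun s => FF s - (s - 1) * deriv FF s) ?_ (m - 1) ?_ ?_ ?_ F1 B1 hF1 hB1a hF10 hB10 hF hBB ?_
    63 (by norm_num) 3 ?_ ε hε
  · intro z _
    have hBd : Differentiable ℂ (fun s => FF s - (s - 1) * deriv FF s) := by
      have : Differentiable ℂ (deriv FF) := hFd.deriv
      fun_prop
    exact hBd.analyticAt z
  · simp only [if_true]
    omega
  · intro ρ hρ
    simp only [if_neg hρ]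
  · have hBd : Differentiable ℂ (fun s => FF s - (s - 1) * deriv FF s) := by
      have : Differentiable ℂ (deriv FF) := hFd.deriv
      fun_prop
    rw [natCast_le_analyticOrderAt (hBd.analyticAt ρ₀)]
    exact ⟨B1, hB1a, hBB⟩
  · intro s hs
    have h1 : 1 < s.re := by rw [hs]; norm_num
    have hs1 : s ≠ 1 := by
      rintro rfl
      norm_num at hs
    have h2 := ArithmeticFunction.LSeries_vonMangoldt_eq_deriv_riemannZeta_div h1
    rw [h2]
    have hz : riemannZeta s ≠ 0 := riemannZeta_ne_zero_of_one_lt_re h1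
    have h3 : deriv FF s = riemannZeta s + (s - 1) * deriv riemannZeta s := by
      have h4 : FF =ᶠ[𝓝 s] fun z => (z - 1) * riemannZeta z := by
        filter_upwards [isOpen_ne.mem_nhds hs1] with z hz
        exact FF_eq_ne hz
      rw [h4.deriv_eq]
      have h5 := ((hasDerivAt_id s).sub_const 1).mul (differentiableAt_riemannZeta hs1).hasDerivAt
      have h6 : HasDerivAt (fun z => (z - 1) * riemannZeta z)
        (1 * riemannZeta s + (s - 1) * deriv riemannZeta s) s := h5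
      rw [h6.deriv, one_mul]
    rw [h3, FF_eq_ne hs1]
    field_simp
    ring
  · intro z z1 z2
    have hz : ‖z‖ ≤ 2 + |z.im| := by
      have := Complex.norm_le_abs_re_add_abs_im z
      rw [abs_of_nonneg (by linarith)] at this
      linarith
    have hz1 : ‖z - 1‖ ≤ 1 + |z.im| := by
      have := Complex.norm_le_abs_re_add_abs_im (z - 1)
      rw [Complex.sub_re, Complex.sub_im, Complex.one_re, Complex.one_im, sub_zero] at this
      have h3 : |z.re - 1| ≤ 1 := abs_le.2 ⟨by linarith, by linarith⟩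
      linarith
    have h4 := FF_bound (1 / 2) (by norm_num) z z1
    have h5 := deriv_FF_bound z z1
    have hi := abs_nonneg z.im
    set t := |z.im| with ht
    have h6 : ‖FF z‖ ≤ 3 * (3 + t) ^ 2 := by
      refine h4.trans ?_
      have : (1 + ‖z‖) ^ 2 ≤ (3 + t) ^ 2 := pow_le_pow_left₀ (by positivity) (by linarith) 2
      norm_num
      linarith
    have h7 : ‖deriv FF z‖ ≤ 20 * (4 + t) ^ 2 := by
      refine h5.trans ?_
      have : (2 + ‖z‖) ^ 2 ≤ (4 + t) ^ 2 := pow_le_pow_left₀ (by positivity) (by linarith) 2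
      linarith
    refine (norm_sub_le _ _).trans ?_
    rw [norm_mul]
    have h8 : ‖z - 1‖ * ‖deriv FF z‖ ≤ (1 + t) * (20 * (4 + t) ^ 2) :=
      mul_le_mul hz1 h7 (norm_nonneg _) (by positivity)
    nlinarith [pow_nonneg hi 2, pow_nonneg hi 3]


/-- the Mertens function: differences over all short intervals, on every window -/
theorem mertens_short {θ κ c e0 : ℝ} (hκ : 0 ≤ κ) (hc : 0 < c) (hθ : 1 / 2 ≤ θ)
    (hcond : 4 * θ * (1 - θ) * (κ + 1) ≤ 1) (hz : ∃ s : ℂ, riemannZeta s = 0 ∧ θ < s.re) (he0 : 0 < e0) :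
    ∀ᶠ X : ℝ in atTop, ∀ H : ℝ, 0 < H → H ≤ X ^ (1 - e0) →
      H * X ^ θ ≤ ∫ y in X..(X + c * X / Real.log X ^ κ),
        |SF (fun n => ((ArithmeticFunction.moebius n : ℤ) : ℝ)) (y + H) -
          SF (fun n => ((ArithmeticFunction.moebius n : ℤ) : ℝ)) y| := by
  obtain ⟨σ0, ρ, h0, h1, h2, h3, h4, hfree⟩ := extract hz (e := e0 / 2) (by linarith)
  obtain ⟨hF, hρ1⟩ := zero_FF h0
  obtain ⟨σ, α, g1, g2, g3, g4, g5⟩ := params hκ hθ hcond h1 hρ1
  have key := short_low (a := fun n => ((ArithmeticFunction.moebius n : ℤ) : ℝ)) (k0 := 0) (β := ρ.re)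
    (σ0 := σ0) (θ := θ) hκ hc he0 (by linarith) h2 h1 (fun ε hε => by
      have := moebius_op (θ := (σ + ρ.re) / 2) (κ := κ) (c := c) (by linarith) (by linarith) hκ hc g3 g4 g5 ρ
        hF (by linarith) (fun _ => 0) (δ := 0) (by norm_num) (by simp) ε hε
      simpa using this) (fun κ' hκ' => by
      obtain ⟨C, hC⟩ := H353.mertens_of_free σ0 (by linarith) hfree κ' hκ'
      refine ⟨C, fun y hy => ?_⟩
      have := hC y hy
      unfold SF
      simpa using this)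
  filter_upwards [key] with X hX H a1 a2
  have := hX H a1 a2
  simpa using this

/-- the Chebyshev function: differences over all short intervals, on every window -/
theorem psi_short {θ κ c e0 : ℝ} (hκ : 0 ≤ κ) (hc : 0 < c) (hθ : 1 / 2 ≤ θ)
    (hcond : 4 * θ * (1 - θ) * (κ + 1) ≤ 1) (hz : ∃ s : ℂ, riemannZeta s = 0 ∧ θ < s.re) (he0 : 0 < e0) :
    ∀ᶠ X : ℝ in atTop, ∀ H : ℝ, 0 < H → H ≤ X ^ (1 - e0) →
      H * X ^ θ ≤ ∫ y in X..(X + c * X / Real.log X ^ κ),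
        |Chebyshev.psi (y + H) - Chebyshev.psi y - H| := by
  obtain ⟨σ0, ρ, h0, h1, h2, h3, h4, hfree⟩ := extract hz (e := e0 / 2) (by linarith)
  obtain ⟨hF, hρ1⟩ := zero_FF h0
  obtain ⟨σ, α, g1, g2, g3, g4, g5⟩ := params hκ hθ hcond h1 hρ1
  have key := short_low (a := fun n => ArithmeticFunction.vonMangoldt n) (k0 := 1) (β := ρ.re)
    (σ0 := σ0) (θ := θ) hκ hc he0 (by linarith) h2 h1 (fun ε hε => by
      have := mangoldt_op (θ := (σ + ρ.re) / 2) (κ := κ) (c := c) (by linarith) (by linarith) hκ hc g3 g4 g5 ρ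
        hF (by linarith) (fun _ => 0) (δ := 0) (by norm_num) (by simp) ε hε
      simpa using this) (fun κ' hκ' => by
      simp only [SF_psi, one_mul]
      rcases le_total κ' 1 with h | h
      · obtain ⟨C, _, hC⟩ := psi_of_free σ0 (by linarith) hfree κ' hκ' h
        exact ⟨C, hC⟩
      · refine ⟨Real.log 4 + 4 + 1, fun y hy => ?_⟩
        have h1 := Chebyshev.psi_le_const_mul_self (x := y) (by linarith)
        have h2 := Chebyshev.psi_nonneg y
        have h3 : y ≤ y ^ κ' := by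
          conv_lhs => rw [← Real.rpow_one y]
          exact Real.rpow_le_rpow_of_exponent_le hy h
        have h5 : 0 ≤ Real.log 4 + 4 + 1 := by
          have := Real.log_nonneg (show (1:ℝ) ≤ 4 by norm_num)
          linarith
        have h6 : |Chebyshev.psi y - y| ≤ (Real.log 4 + 4 + 1) * y := by
          rw [abs_le]
          constructor <;> nlinarith
        exact h6.trans (mul_le_mul_of_nonneg_left h3 h5))
  filter_upwards [key] with X hX H a1 a2
  have := hX H a1 a2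
  simpa only [SF_psi, one_mul] using this

end

end Pool.Agent.R303.SW
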