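import Mathlib

/-! # A band-limited kernel -/

set_option autoImplicit false
set_option maxHeartbeats 4000000

open Filter Topology Set MeasureTheory SchwartzMap FourierTransform

namespace Pool.Agent.R303.SW

noncomputable section

theorem exists_kernel : ∃ (W φ : ℝ → ℂ), Continuous W ∧ Integrable W ∧
    Integrable (fun r : ℝ => |r| * ‖W r‖) ∧ (∫ r, W r = 1) ∧ Continuous φ ∧ Integrable φ ∧
    (∀ v : ℝ, 1 < |v| → φ v = 0) ∧
    ∀ t : ℝ, W t = ∫ v, φ v * Complex.exp (-(2 * Real.pi * v * t) * Complex.I) := by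
  set b : ContDiffBump (0:ℝ) := ⟨1 / 2, 1, by norm_num, by norm_num⟩ with hb
  set φ : ℝ → ℂ := fun v => ((b v : ℝ) : ℂ) with hφ
  have hcs : HasCompactSupport φ := b.hasCompactSupport.comp_left (g := fun x : ℝ => (x : ℂ)) (by simp)
  have hφc : Continuous φ := Complex.continuous_ofReal.comp b.continuous
  set S : 𝓢(ℝ, ℂ) := hcs.toSchwartzMap (Complex.ofRealCLM.contDiff.comp b.contDiff) with hS
  have hSφ : (S : ℝ → ℂ) = φ := rfl
  set T : 𝓢(ℝ, ℂ) := 𝓕 S with hT
  refine ⟨T, φ, T.continuous, T.integrable, ?_, ?_, hφc, ?_, ?_, ?_⟩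
  · have := T.integrable_pow_mul volume 1
    simpa using this
  · have h1 : 𝓕⁻ T = S := fourierInv_fourier_eq S
    have h2 : (𝓕⁻ T : 𝓢(ℝ, ℂ)) 0 = ∫ r, T r := by
      rw [fourierInv_coe, Real.fourierInv_eq]
      simp
    rw [← h2, h1]
    show φ 0 = 1
    rw [hφ]
    simp only
    rw [b.one_of_mem_closedBall (by simp [hb])]
    simp
  · exact hφc.integrable_of_hasCompactSupport hcs
  · intro v hv
    rw [hφ]
    simp only
    rw [b.zero_of_le_dist (by
      rw [Real.dist_eq, sub_zero, hb]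
      exact hv.le)]
    simp
  · intro t
    rw [hT, fourier_coe, Real.fourier_eq, hSφ]
    refine integral_congr_ae (ae_of_all _ fun v => ?_)
    simp only [Circle.smul_def, Real.fourierChar_apply, smul_eq_mul]
    rw [mul_comm]
    congr 2
    simp only [RCLike.inner_apply, conj_trivial]
    push_cast
    ring

end

end Pool.Agent.R303.SW
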